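import Mathlib

/-!
# Primitive points in a lattice
-/

set_option autoImplicit false

namespace Pool.Agent.Lib.AbcX

open Finset

/-- Pairwise non-proportional points `(a, b)` with `A / 2 < a ≤ A`, `b ≤ X` whose determinants are
divisible by `D`: at most `1 + 2 A X / D`. -/
theorem slopes_card (S : Finset (ℕ × ℕ)) (A X D : ℕ) (hD : 1 ≤ D)
    (hS : ∀ t ∈ S, A < 2 * t.1 ∧ t.1 ≤ A ∧ t.2 ≤ X)
    (hdet : ∀ t ∈ S, ∀ t' ∈ S, t ≠ t' → (D : ℝ) ≤ |(t.1 : ℝ) * t'.2 - (t'.1 : ℝ) * t.2|) :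
    (S.card : ℝ) ≤ 1 + 2 * A * X / D := by
  classical
  rcases S.eq_empty_or_nonempty with he | ⟨t0, ht0⟩
  · rw [he, card_empty, Nat.cast_zero]
    positivity
  have hD0 : (0 : ℝ) < D := by exact_mod_cast hD
  obtain ⟨h1, h2, h3⟩ := hS t0 ht0
  have hA1 : 1 ≤ A := by omega
  have hA0 : (0 : ℝ) < A := by exact_mod_cast hA1
  set f : ℕ × ℕ → ℕ := fun t => ⌊(t.2 : ℝ) / t.1 * (A ^ 2 / D)⌋₊ with hf
  have hbd : ∀ t ∈ S, (t.2 : ℝ) / t.1 * (A ^ 2 / D) ≤ 2 * A * X / D := by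
    intro t ht
    obtain ⟨g1, g2, g3⟩ := hS t ht
    have ht1 : (0 : ℝ) < t.1 := by
      have : 0 < t.1 := by omega
      exact_mod_cast this
    have g1' : (A : ℝ) ≤ 2 * t.1 := by exact_mod_cast g1.le
    have g3' : (t.2 : ℝ) ≤ X := by exact_mod_cast g3
    rw [div_mul_div_comm, div_le_div_iff₀ (by positivity) hD0]
    have h4 : (t.2 : ℝ) * A ^ 2 ≤ 2 * A * X * t.1 := by
      calc (t.2 : ℝ) * A ^ 2 = (t.2 * A) * A := by ring
        _ ≤ (X * A) * (2 * t.1) := by gcongr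
        _ = 2 * A * X * t.1 := by ring
    calc (t.2 : ℝ) * A ^ 2 * D ≤ 2 * A * X * t.1 * D := by gcongr
      _ = 2 * A * X * (t.1 * D) := by ring
  have hmaps : ∀ t ∈ S, f t ∈ range (⌊2 * (A : ℝ) * X / D⌋₊ + 1) := by
    intro t ht
    rw [mem_range, Nat.lt_succ_iff]
    exact Nat.floor_le_floor (hbd t ht)
  have hinj : Set.InjOn f S := by
    intro t ht t' ht' hff
    by_contra hne
    obtain ⟨g1, g2, g3⟩ := hS t ht
    obtain ⟨k1, k2, k3⟩ := hS t' ht'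
    have hd := hdet t ht t' ht' hne
    have ht1 : (0 : ℝ) < t.1 := by
      have : 0 < t.1 := by omega
      exact_mod_cast this
    have ht1' : (0 : ℝ) < t'.1 := by
      have : 0 < t'.1 := by omega
      exact_mod_cast this
    have hfl : |(t.2 : ℝ) / t.1 * (A ^ 2 / D) - (t'.2 : ℝ) / t'.1 * (A ^ 2 / D)| < 1 := by
      have e1 := Nat.floor_le (show 0 ≤ (t.2 : ℝ) / t.1 * (A ^ 2 / D) by positivity)
      have e2 := Nat.lt_floor_add_one ((t.2 : ℝ) / t.1 * (A ^ 2 / D))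
      have e3 := Nat.floor_le (show 0 ≤ (t'.2 : ℝ) / t'.1 * (A ^ 2 / D) by positivity)
      have e4 := Nat.lt_floor_add_one ((t'.2 : ℝ) / t'.1 * (A ^ 2 / D))
      simp only [hf] at hff
      rw [hff] at e1 e2
      rw [abs_lt]
      constructor <;> linarith
    have heq : (t.2 : ℝ) / t.1 * (A ^ 2 / D) - (t'.2 : ℝ) / t'.1 * (A ^ 2 / D) =
        -((t.1 : ℝ) * t'.2 - (t'.1 : ℝ) * t.2) * (A ^ 2 / (D * (t.1 * t'.1))) := by
      field_simp
      ring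
    rw [heq, abs_mul, abs_neg, abs_of_pos (show (0 : ℝ) < A ^ 2 / (D * (t.1 * t'.1)) by
      positivity)] at hfl
    have h4 : (1 : ℝ) ≤ D * (A ^ 2 / (D * (t.1 * t'.1))) := by
      have e : (D : ℝ) * (A ^ 2 / (D * (t.1 * t'.1))) = A ^ 2 / (t.1 * t'.1) := by
        field_simp
      rw [e, one_le_div (by positivity), pow_two]
      have g2' : (t.1 : ℝ) ≤ A := by exact_mod_cast g2
      have k2' : (t'.1 : ℝ) ≤ A := by exact_mod_cast k2
      exact mul_le_mul g2' k2' ht1'.le hA0.le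
    have h5 : (D : ℝ) * (A ^ 2 / (D * (t.1 * t'.1))) ≤
        |(t.1 : ℝ) * t'.2 - (t'.1 : ℝ) * t.2| * (A ^ 2 / (D * (t.1 * t'.1))) :=
      mul_le_mul_of_nonneg_right hd (by positivity)
    linarith
  have hcard := Finset.card_le_card_of_injOn f hmaps hinj
  rw [card_range] at hcard
  have h5 : (S.card : ℝ) ≤ (⌊2 * (A : ℝ) * X / D⌋₊ : ℝ) + 1 := by exact_mod_cast hcard
  have h6 := Nat.floor_le (show 0 ≤ 2 * (A : ℝ) * X / D by positivity)
  linarith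

end Pool.Agent.Lib.AbcX
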