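import Pool.Agent.Lib.AbcL.Linear

/-!
# The lower bound `Y ^ (1 - M - ε)` for `1/3 < M < 1`
-/

set_option autoImplicit false

namespace Pool.Agent.Lib.AbcX

open Finset Filter Topology Pool.Agent.Lib.Pabcv

/-- The abc-triples `(a, b, c)` with `rad (abc) ≤ Y` and `rad (abc) ^ M ≤ c`. -/
def violT (M : ℝ) (Y : ℕ) : Set (ℕ × ℕ × ℕ) :=
  {t | AbcTriple t.1 t.2.1 t.2.2 ∧ rad (t.1 * t.2.1 * t.2.2) ≤ Y ∧
    (rad (t.1 * t.2.1 * t.2.2) : ℝ) ^ M ≤ t.2.2}

/-- The triples `(2 ^ j, t, 2 ^ j + t)`. -/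
theorem lower_high (M : ℝ) (hM : 1 / 2 ≤ M) (hM1 : M < 1) : ∀ᶠ Y : ℕ in atTop,
    (violT M Y).Finite → (Y : ℝ) ^ (1 - M) / 48 ≤ (violT M Y).ncard := by
  classical
  have hlim2 : Tendsto (fun n : ℕ => (n : ℝ)) atTop atTop := tendsto_natCast_atTop_atTop
  filter_upwards [((tendsto_rpow_atTop (show 0 < 1 - M by linarith)).comp
      hlim2).eventually_ge_atTop 48, eventually_ge_atTop 1] with Y g1 hY1 hfin
  simp only [Function.comp] at g1
  have hY0 : (0 : ℝ) < Y := by exact_mod_cast hY1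
  have hY1' : (1 : ℝ) ≤ Y := by exact_mod_cast hY1
  set P : ℝ := (Y : ℝ) ^ M with hP
  set Q : ℝ := (Y : ℝ) ^ (1 - M) with hQ
  have hP1 : 1 ≤ P := Real.one_le_rpow hY1' (by linarith)
  have hQP : Q ≤ P := Real.rpow_le_rpow_of_exponent_le hY1' (by linarith)
  have hPQ : P * Q = Y := by
    rw [hP, hQ, ← Real.rpow_add hY0]
    rw [show M + (1 - M) = 1 by ring, Real.rpow_one]
  set j : ℕ := Nat.clog 2 ⌈P⌉₊ with hj
  have hj1 : P ≤ ((2 ^ j : ℕ) : ℝ) :=
    (Nat.le_ceil P).trans (by exact_mod_cast Nat.le_pow_clog (by norm_num) _)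
  have hj2 : ((2 ^ j : ℕ) : ℝ) ≤ 4 * P := by
    have h1 : 2 ^ j ≤ 2 * ⌈P⌉₊ := by
      by_contra hcon
      rw [not_le] at hcon
      have hc1 : 1 ≤ ⌈P⌉₊ := Nat.one_le_iff_ne_zero.2 (Nat.ceil_pos.2 (by linarith)).ne'
      have h0 : 1 ≤ j := by
        by_contra h0
        have h2 : j = 0 := by omega
        rw [h2] at hcon
        omega
      obtain ⟨k, hk⟩ : ∃ k, j = k + 1 := ⟨j - 1, by omega⟩
      rw [hk, pow_succ] at hcon
      have h2 : ⌈P⌉₊ ≤ 2 ^ k := by omega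
      have h3 := (Nat.clog_le_iff_le_pow (by norm_num : 1 < 2)).mpr h2
      omega
    have h2 : (⌈P⌉₊ : ℝ) < P + 1 := Nat.ceil_lt_add_one (by linarith)
    have h3 : ((2 ^ j : ℕ) : ℝ) ≤ 2 * (⌈P⌉₊ : ℝ) := by exact_mod_cast h1
    linarith
  set S : ℕ := ⌊Q / 24⌋₊ with hS
  have hS1 : (S : ℝ) ≤ Q / 24 := Nat.floor_le (by positivity)
  have hS2 : Q / 24 < S + 1 := Nat.lt_floor_add_one _
  have hj0 : 1 ≤ 2 ^ j := Nat.one_le_two_pow
  have hjpos : 1 ≤ j := by
    by_contra h0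
    have h2 : j = 0 := by omega
    rw [h2] at hj1
    simp only [pow_zero, Nat.cast_one] at hj1
    linarith
  set f : ℕ → ℕ × ℕ × ℕ := fun s => (2 ^ j, 2 * s + 1, 2 ^ j + (2 * s + 1)) with hf
  have hinj : Function.Injective f := by
    intro s s' h
    simp only [hf, Prod.mk.injEq] at h
    omega
  have hsub : ((range S).image f : Set (ℕ × ℕ × ℕ)) ⊆ violT M Y := by
    rintro ⟨a, b, c⟩ h
    rw [Finset.mem_coe, Finset.mem_image] at h
    obtain ⟨s, hs, h2⟩ := h
    simp only [hf, Prod.mk.injEq] at h2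
    obtain ⟨rfl, rfl, rfl⟩ := h2
    rw [mem_range] at hs
    have hcop : Nat.Coprime (2 ^ j) (2 * s + 1) := by
      apply Nat.Coprime.pow_left
      rw [Nat.coprime_two_left, Nat.odd_iff]
      omega
    have ht : ((2 * s + 1 : ℕ) : ℝ) ≤ Q / 12 := by
      have h1 : 2 * s + 1 ≤ 2 * S := by omega
      have h2 : ((2 * s + 1 : ℕ) : ℝ) ≤ 2 * (S : ℝ) := by exact_mod_cast h1
      linarith
    have hrad : rad (2 ^ j * (2 * s + 1) * (2 ^ j + (2 * s + 1))) ≤
        2 * ((2 * s + 1) * (2 ^ j + (2 * s + 1))) := by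
      have hdiv : rad (2 ^ j * (2 * s + 1) * (2 ^ j + (2 * s + 1))) ∣
          2 * ((2 * s + 1) * (2 ^ j + (2 * s + 1))) := by
        unfold rad
        have hprime : ∀ p ∈ (2 ^ j * (2 * s + 1) * (2 ^ j + (2 * s + 1))).primeFactors,
            p.Prime := fun p hp => Nat.prime_of_mem_primeFactors hp
        refine Finset.prod_primes_dvd _ (fun p hp => (hprime p hp).prime) fun p hp => ?_
        have h1 := Nat.dvd_of_mem_primeFactors hp
        rw [mul_assoc, (hprime p hp).dvd_mul] at h1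
        rcases h1 with h1 | h1
        · exact Dvd.dvd.mul_right ((hprime p hp).dvd_of_dvd_pow h1) _
        · exact Dvd.dvd.mul_left h1 _
      exact Nat.le_of_dvd (by positivity) hdiv
    have hradY : rad (2 ^ j * (2 * s + 1) * (2 ^ j + (2 * s + 1))) ≤ Y := by
      have h1 : ((2 * ((2 * s + 1) * (2 ^ j + (2 * s + 1))) : ℕ) : ℝ) ≤ Y := by
        have h2 : ((2 ^ j + (2 * s + 1) : ℕ) : ℝ) ≤ 5 * P := by
          have h3 : ((2 ^ j + (2 * s + 1) : ℕ) : ℝ) = ((2 ^ j : ℕ) : ℝ) + ((2 * s + 1 : ℕ) : ℝ) := by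
            push_cast
            ring
          rw [h3]
          linarith
        have h4 : ((2 * ((2 * s + 1) * (2 ^ j + (2 * s + 1))) : ℕ) : ℝ) =
            2 * (((2 * s + 1 : ℕ) : ℝ) * ((2 ^ j + (2 * s + 1) : ℕ) : ℝ)) := by
          push_cast
          ring
        rw [h4]
        calc 2 * (((2 * s + 1 : ℕ) : ℝ) * ((2 ^ j + (2 * s + 1) : ℕ) : ℝ))
            ≤ 2 * (Q / 12 * (5 * P)) := by gcongr
          _ = 10 / 12 * (P * Q) := by ring
          _ = 10 / 12 * Y := by rw [hPQ]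
          _ ≤ Y := by linarith
      have h5 : (rad (2 ^ j * (2 * s + 1) * (2 ^ j + (2 * s + 1))) : ℝ) ≤ Y :=
        le_trans (by exact_mod_cast hrad) h1
      exact_mod_cast h5
    refine ⟨⟨by positivity, by simp only; omega, by simp only; omega, hcop, ?_, ?_, rfl⟩,
      hradY, ?_⟩
    · simp only
      exact (Nat.coprime_self_add_right).mpr hcop
    · simp only
      exact (Nat.coprime_add_self_right).mpr hcop.symm
    · simp only
      have h3 : (rad (2 ^ j * (2 * s + 1) * (2 ^ j + (2 * s + 1))) : ℝ) ≤ Y := by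
        exact_mod_cast hradY
      calc (rad (2 ^ j * (2 * s + 1) * (2 ^ j + (2 * s + 1))) : ℝ) ^ M ≤ (Y : ℝ) ^ M :=
            Real.rpow_le_rpow (Nat.cast_nonneg _) h3 (by linarith)
        _ ≤ ((2 ^ j : ℕ) : ℝ) := hj1
        _ ≤ ((2 ^ j + (2 * s + 1) : ℕ) : ℝ) := by
            have : 2 ^ j ≤ 2 ^ j + (2 * s + 1) := by omega
            exact_mod_cast this
  have h1 := Set.ncard_le_ncard hsub hfin
  rw [Set.ncard_coe_finset, Finset.card_image_of_injective _ hinj, card_range] at h1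
  have h6 : (S : ℝ) ≤ (violT M Y).ncard := by exact_mod_cast h1
  linarith

/-- The lower bound for all `1/3 < M < 1`. -/
theorem lower_all (M : ℝ) (hM : 1 / 3 < M) (hM1 : M < 1) (ε : ℝ) (hε : 0 < ε) :
    ∀ᶠ Y : ℕ in atTop, (violT M Y).Finite → (Y : ℝ) ^ (1 - M - ε) ≤ (violT M Y).ncard := by
  have hlim2 : Tendsto (fun n : ℕ => (n : ℝ)) atTop atTop := tendsto_natCast_atTop_atTop
  have hmain : ∀ᶠ Y : ℕ in atTop, (violT M Y).Finite →
      (Y : ℝ) ^ (1 - M) / 256 ≤ (violT M Y).ncard := by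
    rcases lt_or_ge M (1 / 2) with h | h
    · filter_upwards [AbcL.exc_lower (M - 1 / 3) (by linarith) (by linarith)] with Y h1 hfin
      have e : AbcL.excTriples (M - 1 / 3) Y = violT M Y := by
        unfold AbcL.excTriples violT
        rw [show 1 / 3 + (M - 1 / 3) = M by ring]
      rw [e] at h1
      have h2 := h1 hfin
      rw [show 2 / 3 - (M - 1 / 3) = 1 - M by ring] at h2
      exact h2
    · filter_upwards [lower_high M h hM1, eventually_ge_atTop 1] with Y h1 hY1 hfin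
      have h2 := h1 hfin
      have hY0 : (0 : ℝ) < Y := by exact_mod_cast hY1
      have h3 : 0 < (Y : ℝ) ^ (1 - M) := by positivity
      linarith
  filter_upwards [hmain, ((tendsto_rpow_atTop hε).comp hlim2).eventually_ge_atTop 256,
    eventually_ge_atTop 1] with Y h1 h2 hY1 hfin
  simp only [Function.comp] at h2
  have hY0 : (0 : ℝ) < Y := by exact_mod_cast hY1
  refine le_trans ?_ (h1 hfin)
  rw [Real.rpow_sub hY0 (1 - M) ε]
  exact div_le_div_of_nonneg_left (by positivity) (by norm_num) h2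

end Pool.Agent.Lib.AbcX
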