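import Pool.Agent.Lib.AbcX.Full
import Pool.Agent.Lib.AbcX.Lower

/-!
# The exponent function
-/

set_option autoImplicit false

namespace Pool.Agent.Lib.AbcX

open Finset Filter Topology Pool.Agent.Lib.Pabc2 Pool.Agent.Lib.AbcL

/-- The exponent function: `1 - M` up to `2/5`, at most `3/5` from there on, tending to `1/3`. -/
theorem exists_exponent_full : ∃ f : ℝ → ℝ, (∀ M, M ≤ 2 / 5 → f M = 1 - M) ∧
    (∀ M, 2 / 5 ≤ M → 1 / 3 ≤ f M ∧ f M ≤ 3 / 5) ∧ Tendsto f atTop (𝓝 (1 / 3)) ∧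
    ∀ M : ℝ, 1 / 3 < M → ∀ ε : ℝ, 0 < ε →
      ∀ᶠ n : ℕ in atTop, ∀ T : Finset (ℕ × ℕ),
        (∀ t ∈ T, IsT t ∧ rd t ≤ n ∧ M * Real.log (rd t) ≤ ht t) →
        (T.card : ℝ) ≤ (n : ℝ) ^ (f M + ε) := by
  classical
  obtain ⟨g, hg, hlim, hmain⟩ := Pabc14.exists_exponent
  set f : ℝ → ℝ := fun M => if M ≤ 2 / 5 then 1 - M else if M ≤ 1 then 3 / 5 else g M with hf
  refine ⟨f, fun M hM => ?_, fun M hM => ?_, ?_, fun M hM ε hε => ?_⟩
  · simp only [hf]
    rw [if_pos hM]
  · simp only [hf]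
    split_ifs with h1 h2
    · have : M = 2 / 5 := le_antisymm h1 hM
      rw [this]
      constructor <;> norm_num
    · constructor <;> norm_num
    · exact hg M
  · refine hlim.congr' ?_
    filter_upwards [eventually_gt_atTop (1 : ℝ)] with M hM
    simp only [hf]
    rw [if_neg (by linarith), if_neg (by linarith)]
  · rcases le_or_gt M (2 / 5) with h | h
    · have e : f M = max (1 - M) (3 / 5) := by
        simp only [hf]
        rw [if_pos h, max_eq_left (by linarith)]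
      rw [e]
      exact viol_all M hM ε hε
    · rcases le_or_gt M 1 with h1 | h1
      · have e : f M = max (1 - M) (3 / 5) := by
          simp only [hf]
          rw [if_neg (by linarith), if_pos h1, max_eq_right (by linarith)]
        rw [e]
        exact viol_all M hM ε hε
      · have e : f M = g M := by
          simp only [hf]
          rw [if_neg (by linarith), if_neg (by linarith)]
        rw [e]
        exact hmain M (by linarith) ε hε

/-- The same for the set of all triples. -/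
theorem violT_full : ∃ f : ℝ → ℝ, (∀ M, M ≤ 2 / 5 → f M = 1 - M) ∧
    (∀ M, 2 / 5 ≤ M → 1 / 3 ≤ f M ∧ f M ≤ 3 / 5) ∧ Tendsto f atTop (𝓝 (1 / 3)) ∧
    ∀ M ε : ℝ, 1 / 3 < M → 0 < ε → ∀ᶠ Y : ℕ in atTop, (violT M Y).Finite ∧
      ((violT M Y).ncard : ℝ) ≤ (Y : ℝ) ^ (f M + ε) ∧
      (M < 1 → (Y : ℝ) ^ (1 - M - ε) ≤ (violT M Y).ncard) := by
  obtain ⟨f, hf1, hf2, hlim, hmain⟩ := exists_exponent_full
  refine ⟨f, hf1, hf2, hlim, fun M ε hM hε => ?_⟩
  have hlim2 : Tendsto (fun n : ℕ => (n : ℝ)) atTop atTop := tendsto_natCast_atTop_atTop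
  have hlow : ∀ᶠ Y : ℕ in atTop, (violT M Y).Finite → M < 1 →
      (Y : ℝ) ^ (1 - M - ε) ≤ (violT M Y).ncard := by
    rcases lt_or_ge M 1 with h | h
    · filter_upwards [lower_all M hM h ε hε] with Y hY h1 _
      exact hY h1
    · exact Filter.Eventually.of_forall fun Y _ h1 => absurd h1 (not_lt.2 h)
  filter_upwards [hmain M hM (ε / 2) (by positivity), hlow,
    ((tendsto_rpow_atTop (show 0 < ε / 2 by positivity)).comp hlim2).eventually_ge_atTop 2,
    eventually_ge_atTop 1] with Y h2 hl h3 hY1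
  simp only [Function.comp] at h3
  have hY0 : (0 : ℝ) < Y := by exact_mod_cast hY1
  obtain ⟨ha, hb⟩ := AbcL.transfer (V := violT M Y)
    (Q := fun t => IsT t ∧ rd t ≤ Y ∧ M * Real.log (rd t) ≤ ht t)
    (B := (Y : ℝ) ^ (f M + ε / 2)) (by
      rintro ⟨a, b, c⟩ ⟨habc, hr, hc3⟩
      simp only at habc hr hc3
      simp only
      have hrpos : (0 : ℝ) < Pabcv.rad (a * b * c) := by exact_mod_cast Pabcv.rad_pos _
      refine ⟨habc, AbcL.isT_of habc, ?_, ?_⟩
      · rw [AbcL.rd_of habc]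
        exact hr
      · rw [AbcL.ht_of habc, AbcL.rd_of habc]
        have h4 := Real.log_le_log (Real.rpow_pos_of_pos hrpos M) hc3
        rw [Real.log_rpow hrpos] at h4
        exact h4) h2
  refine ⟨ha, hb.trans ?_, hl ha⟩
  have h4 : (Y : ℝ) ^ (f M + ε) = (Y : ℝ) ^ (ε / 2) * (Y : ℝ) ^ (f M + ε / 2) := by
    rw [← Real.rpow_add hY0]
    congr 1
    ring
  rw [h4]
  exact mul_le_mul_of_nonneg_right h3 (by positivity)

end Pool.Agent.Lib.AbcX
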