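import Mathlib
import Pool.Agent.Lib.Pabcv.Split

/-!
# Splitting an integer by the size of its exponents
-/

set_option autoImplicit false

namespace Pool.Agent.Lib.AbcX

open Finset Pool.Agent.Lib.Pabcv Pool.Agent.Lib.Pabcv.SplitAux

/-- `n` is divisible by a large power with a small cofactor, or has a divisor with a controlled
radical and large exponents. -/
theorem split3 (n : ℕ) (hn : 1 ≤ n) (T0 T1 : ℝ) (hT0 : 1 < T0) (hT1 : 1 < T1) :
    (∃ z k w : ℕ, 2 ≤ k ∧ 2 ≤ z ∧ 1 ≤ w ∧ n = w * z ^ k ∧ rad n = rad w * z ∧ T0 ≤ (z : ℝ)) ∨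
    (∃ α : ℕ, α ∣ n ∧ (rad α) ^ 3 ≤ α ∧ T1 ≤ (rad α : ℝ) ∧ (rad α : ℝ) ≤ max T0 (T1 ^ 2)) ∨
    (∃ α : ℕ, α ∣ n ∧ (rad α) ^ 2 ≤ α ∧ T0 ≤ T1 * (rad α : ℝ) ∧ (rad α : ℝ) ≤ T0) ∨
    (∃ α : ℕ, α ∣ n ∧ (rad α) ^ 2 ≤ α ∧ (rad α : ℝ) ≤ T0 ∧ α * rad n = n * rad α) := by
  classical
  have hn0 : n ≠ 0 := by omega
  have hfac : ∀ p ∈ n.primeFactors, 1 ≤ n.factorization p := by
    intro p hp
    have h1 : p ∈ n.factorization.support := by
      rw [Nat.support_factorization]; exact hp
    exact Nat.one_le_iff_ne_zero.2 (Finsupp.mem_support_iff.1 h1)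
  have hppos : ∀ p ∈ n.primeFactors, 1 ≤ p := fun p hp =>
    (Nat.prime_of_mem_primeFactors hp).one_lt.le
  set P2 := n.primeFactors.filter (fun p => n.factorization p = 2) with hP2
  set P3 := n.primeFactors.filter (fun p => 3 ≤ n.factorization p) with hP3
  have hP2s : P2 ⊆ n.primeFactors := Finset.filter_subset _ _
  have hP3s : P3 ⊆ n.primeFactors := Finset.filter_subset _ _
  have hpart_pos : ∀ T : Finset ℕ, T ⊆ n.primeFactors → 1 ≤ part n T := by
    intro T hT
    exact Finset.prod_pos fun p hp => pow_pos (show 0 < p from hppos p (hT hp)) _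
  have hdvd : ∀ T : Finset ℕ, T ⊆ n.primeFactors → part n T ∣ n := fun T hT =>
    ⟨_, (part_mul n hn0 T hT).symm⟩
  have hpow_le : ∀ (T : Finset ℕ) (k : ℕ), T ⊆ n.primeFactors →
      (∀ p ∈ T, k ≤ n.factorization p) → rad (part n T) ^ k ≤ part n T := by
    intro T k hT hk
    rw [rad_part n T hT, part, ← Finset.prod_pow]
    exact Finset.prod_le_prod' fun p hp => Nat.pow_le_pow_right (hppos p (hT hp)) (hk p hp)
  -- a large power
  have hlarge : ∀ (T : Finset ℕ) (k : ℕ), T ⊆ n.primeFactors → 2 ≤ k →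
      (∀ p ∈ T, n.factorization p = k) → T0 ≤ ((∏ p ∈ T, p : ℕ) : ℝ) →
      ∃ z k w : ℕ, 2 ≤ k ∧ 2 ≤ z ∧ 1 ≤ w ∧ n = w * z ^ k ∧ rad n = rad w * z ∧ T0 ≤ (z : ℝ) := by
    intro T k hT hk he hbig
    have hsd : n.primeFactors \ T ⊆ n.primeFactors := Finset.sdiff_subset
    refine ⟨∏ p ∈ T, p, k, part n (n.primeFactors \ T), hk, ?_, hpart_pos _ hsd, ?_, ?_, hbig⟩
    · have h1 : (1 : ℝ) < ((∏ p ∈ T, p : ℕ) : ℝ) := lt_of_lt_of_le hT0 hbig
      have h2 : 1 < ∏ p ∈ T, p := by exact_mod_cast h1
      omega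
    · rw [mul_comm, ← Finset.prod_pow]
      have h1 : ∏ p ∈ T, p ^ k = part n T := by
        rw [part]
        exact Finset.prod_congr rfl fun p hp => by rw [he p hp]
      rw [h1]
      exact (part_mul n hn0 T hT).symm
    · rw [rad_part n _ hsd, mul_comm]
      exact (rad_mul n T hT).symm
  rcases le_or_gt T0 ((∏ p ∈ P2, p : ℕ) : ℝ) with hA | hA
  · left
    exact hlarge P2 2 hP2s le_rfl (fun p hp => (mem_filter.1 hp).2) hA
  by_cases hB : ∃ p ∈ P3, T0 ≤ (p : ℝ)
  · left
    obtain ⟨p, hp, hpT⟩ := hB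
    refine hlarge {p} (n.factorization p) (Finset.singleton_subset_iff.2 (hP3s hp)) ?_ ?_ ?_
    · have := (mem_filter.1 hp).2
      omega
    · intro q hq
      rw [Finset.mem_singleton] at hq
      rw [hq]
    · rw [Finset.prod_singleton]
      exact hpT
  · push Not at hB
    right
    rcases le_or_gt T1 ((∏ p ∈ P3, p : ℕ) : ℝ) with hC | hC
    · left
      obtain ⟨S, hSm, hmin⟩ := Finset.exists_min_image
        (P3.powerset.filter fun S => T1 ≤ ((∏ p ∈ S, p : ℕ) : ℝ)) Finset.card
        ⟨P3, by simp only [Finset.mem_filter, Finset.mem_powerset]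
                exact ⟨subset_rfl, hC⟩⟩
      rw [Finset.mem_filter, Finset.mem_powerset] at hSm
      obtain ⟨hS, hST⟩ := hSm
      have hSn : S ⊆ n.primeFactors := hS.trans hP3s
      have herase : ∀ p ∈ S, ((∏ q ∈ S.erase p, q : ℕ) : ℝ) < T1 := by
        intro p hp
        by_contra hcon
        rw [not_lt] at hcon
        have h4 := hmin (S.erase p) (by
          rw [Finset.mem_filter, Finset.mem_powerset]
          exact ⟨(Finset.erase_subset _ _).trans hS, hcon⟩)
        have h5 := Finset.card_erase_lt_of_mem hp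
        omega
      refine ⟨part n S, hdvd S hSn, hpow_le S 3 hSn (fun p hp => (mem_filter.1 (hS hp)).2), ?_, ?_⟩
      · rw [rad_part n S hSn]
        exact hST
      · rw [rad_part n S hSn]
        have hne : S.Nonempty := by
          rw [Finset.nonempty_iff_ne_empty]
          rintro rfl
          simp at hST
          linarith
        obtain ⟨p, hp⟩ := hne
        have h5 : p * ∏ q ∈ S.erase p, q = ∏ q ∈ S, q := Finset.mul_prod_erase S (fun q => q) hp
        rcases (S.erase p).eq_empty_or_nonempty with hE | ⟨q, hq⟩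
        · refine le_trans ?_ (le_max_left _ _)
          rw [← h5, hE, Finset.prod_empty, mul_one]
          exact (hB p (hS hp)).le
        · refine le_trans ?_ (le_max_right _ _)
          have hqS : q ∈ S := Finset.mem_of_mem_erase hq
          have hqp : q ≠ p := (Finset.mem_erase.1 hq).1
          have hpE : p ∈ S.erase q := Finset.mem_erase.2 ⟨Ne.symm hqp, hp⟩
          have h6 : p ≤ ∏ r ∈ S.erase q, r := by
            apply Nat.le_of_dvd
            · exact Finset.prod_pos fun r hr => hppos r (hSn (Finset.mem_of_mem_erase hr))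
            · exact Finset.dvd_prod_of_mem (fun r => r) hpE
          have h7 : (p : ℝ) < T1 := lt_of_le_of_lt (by exact_mod_cast h6) (herase q hqS)
          have h8 := herase p hp
          have h9 : ((∏ r ∈ S, r : ℕ) : ℝ) = (p : ℝ) * ((∏ r ∈ S.erase p, r : ℕ) : ℝ) := by
            rw [← h5]
            push_cast
            rfl
          rw [h9, pow_two]
          exact mul_le_mul h7.le h8.le (Nat.cast_nonneg _) (by linarith)
    · right
      have hdisj : Disjoint P2 P3 := by
        rw [Finset.disjoint_left]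
        intro p h2 h3
        have e2 := (mem_filter.1 h2).2
        have e3 := (mem_filter.1 h3).2
        omega
      rcases le_or_gt T0 ((∏ p ∈ P2, p : ℕ) * (∏ p ∈ P3, p : ℕ) : ℝ) with hD | hD
      · left
        refine ⟨part n P2, hdvd P2 hP2s, hpow_le P2 2 hP2s
          (fun p hp => by have := (mem_filter.1 hp).2; omega), ?_, ?_⟩
        · rw [rad_part n P2 hP2s]
          refine hD.trans ?_
          rw [mul_comm]
          exact mul_le_mul_of_nonneg_right hC.le (Nat.cast_nonneg _)
        · rw [rad_part n P2 hP2s]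
          exact hA.le
      · right
        have hT : P2 ∪ P3 ⊆ n.primeFactors := Finset.union_subset hP2s hP3s
        have hrad : rad (part n (P2 ∪ P3)) = (∏ p ∈ P2, p) * ∏ p ∈ P3, p := by
          rw [rad_part n _ hT, Finset.prod_union hdisj]
        refine ⟨part n (P2 ∪ P3), hdvd _ hT, hpow_le _ 2 hT ?_, ?_, ?_⟩
        · intro p hp
          rw [mem_union] at hp
          rcases hp with hp | hp
          · have := (mem_filter.1 hp).2; omega
          · have := (mem_filter.1 hp).2; omega
        · rw [hrad]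
          push_cast
          push_cast at hD
          exact hD.le
        · have hsd : n.primeFactors \ (P2 ∪ P3) ⊆ n.primeFactors := Finset.sdiff_subset
          have h1 : part n (n.primeFactors \ (P2 ∪ P3)) = ∏ p ∈ n.primeFactors \ (P2 ∪ P3), p := by
            rw [part]
            refine Finset.prod_congr rfl fun p hp => ?_
            rw [mem_sdiff, mem_union, not_or] at hp
            obtain ⟨hp1, hp2, hp3⟩ := hp
            have e1 := hfac p hp1
            have e2 : n.factorization p ≠ 2 := fun h => hp2 (mem_filter.2 ⟨hp1, h⟩)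
            have e3 : ¬ 3 ≤ n.factorization p := fun h => hp3 (mem_filter.2 ⟨hp1, h⟩)
            have e4 : n.factorization p = 1 := by omega
            rw [e4, pow_one]
          have h2 := part_mul n hn0 _ hT
          have h3 := rad_mul n _ hT
          rw [h1] at h2
          rw [← h3, rad_part n _ hT]
          calc part n (P2 ∪ P3) * ((∏ p ∈ P2 ∪ P3, p) * ∏ p ∈ n.primeFactors \ (P2 ∪ P3), p)
              = (part n (P2 ∪ P3) * ∏ p ∈ n.primeFactors \ (P2 ∪ P3), p) *
                ∏ p ∈ P2 ∪ P3, p := by ring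
            _ = n * ∏ p ∈ P2 ∪ P3, p := by rw [h2]

end Pool.Agent.Lib.AbcX
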