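import Pool.Agent.Lib.AbcX.Num
import Pool.Agent.Lib.AbcX.RadE
import Pool.Agent.Lib.AbcX.Split3
import Pool.Agent.Lib.Pabcv.Core

/-!
# The main count, `n ≥ Y ^ (529/1000)`
-/

set_option autoImplicit false

namespace Pool.Agent.Lib.AbcX

open Finset Pool.Agent.Lib.Pabcv

open Classical in
/-- The triples `(x, y, n)` of `[1, ⌊Y^K⌋]³` with `n = x + y` or `n = |x - y|`, `n` coprime to
`x` and `y`, `rad x ≤ rad y`, `rad x ≤ rad n`, `rad x * rad y * rad n ≤ Y`,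
`n ≥ Y^(529/1000)`. -/
noncomputable def mainSet2 (K Y : ℝ) : Finset (ℕ × ℕ × ℕ) :=
  (Finset.Icc 1 ⌊Y ^ K⌋₊ ×ˢ (Finset.Icc 1 ⌊Y ^ K⌋₊ ×ˢ Finset.Icc 1 ⌊Y ^ K⌋₊)).filter
    (fun t : ℕ × ℕ × ℕ => Rel t.1 t.2.1 t.2.2 ∧ t.1.Coprime t.2.2 ∧ t.2.1.Coprime t.2.2 ∧
      rad t.1 ≤ rad t.2.1 ∧ rad t.1 ≤ rad t.2.2 ∧
      ((rad t.1 * rad t.2.1 * rad t.2.2 : ℕ) : ℝ) ≤ Y ∧ Y ^ (529 / 1000 : ℝ) ≤ t.2.2)

open Classical in
/-- The part of `mainSet2` in the cell `(i, j, l)`. -/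
noncomputable def Qcell2 (K Y : ℝ) (c : ℕ × ℕ × ℕ) : Finset (ℕ × ℕ × ℕ) :=
  (mainSet2 K Y).filter (fun t : ℕ × ℕ × ℕ =>
    (cell (1 / 10000) Y (rad t.1), cell (1 / 10000) Y (rad t.2.1),
      cell (1 / 10000) Y (rad t.2.2)) = c)

theorem mem_Qcell2 {K Y : ℝ} {c t : ℕ × ℕ × ℕ} (h : t ∈ Qcell2 K Y c) :
    ((1 ≤ t.1 ∧ t.1 ≤ ⌊Y ^ K⌋₊) ∧ (1 ≤ t.2.1 ∧ t.2.1 ≤ ⌊Y ^ K⌋₊) ∧
      (1 ≤ t.2.2 ∧ t.2.2 ≤ ⌊Y ^ K⌋₊)) ∧
    Rel t.1 t.2.1 t.2.2 ∧ t.1.Coprime t.2.2 ∧ t.2.1.Coprime t.2.2 ∧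
      rad t.1 ≤ rad t.2.1 ∧ rad t.1 ≤ rad t.2.2 ∧
      ((rad t.1 * rad t.2.1 * rad t.2.2 : ℕ) : ℝ) ≤ Y ∧ Y ^ (529 / 1000 : ℝ) ≤ t.2.2 ∧
    cell (1 / 10000) Y (rad t.1) = c.1 ∧ cell (1 / 10000) Y (rad t.2.1) = c.2.1 ∧
      cell (1 / 10000) Y (rad t.2.2) = c.2.2 := by
  classical
  simp only [Qcell2, mem_filter, mainSet2, mem_product, mem_Icc] at h
  obtain ⟨⟨⟨h1, h2, h3⟩, h4⟩, h5⟩ := h
  obtain ⟨c1, c2, c3⟩ := c
  simp only [Prod.mk.injEq] at h5
  exact ⟨⟨h1, h2, h3⟩, h4.1, h4.2.1, h4.2.2.1, h4.2.2.2.1, h4.2.2.2.2.1, h4.2.2.2.2.2.1,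
    h4.2.2.2.2.2.2, h5.1, h5.2.1, h5.2.2⟩

/-- The exponent of the modulus, three types. -/
noncomputable def sg (u3 : ℝ) (i : ℕ) (ρ : ℝ) : ℝ :=
  if i = 0 then 3 * (ρ - 1 / 10000) else if i = 1 then 2 * (ρ - 1 / 10000)
  else max (2 * (ρ - 1 / 10000)) (529 / 1000 - u3 + (ρ - 1 / 10000))

/-- The index `(i, s)` is good. -/
def Good (u1 u2 u3 : ℝ) (i s : ℕ) : Prop :=
  0 ≤ sg u3 i (1 / 10000 * s) ∧ 1 / 10000 * s +
    (eE (sg u3 i (1 / 10000 * s)) (u1 + 1 / 100000) +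
      eE (sg u3 i (1 / 10000 * s)) (u2 + 1 / 100000)) / 2 ≤ 5983 / 10000

theorem Qcell2_card (K : ℝ) (hK : 1 ≤ K) : ∃ C Y0 : ℝ, 1 ≤ C ∧ ∀ Y : ℝ, Y0 ≤ Y →
    ∀ c : ℕ × ℕ × ℕ, ((Qcell2 K Y c).card : ℝ) ≤ C * Y ^ (5987 / 10000 : ℝ) := by
  classical
  have hK0 : 0 < K := by linarith
  set δ : ℝ := 1 / 100000 with hδ
  have hδ0 : 0 < δ := by rw [hδ]; norm_num
  set η : ℝ := 1 / 10000 with hη
  have hη0 : 0 < η := by rw [hη]; norm_num
  obtain ⟨C1, hC11, hC1⟩ := radSet_card_pow K δ hK0 hδ0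
  obtain ⟨C2, Y2, hC21, hC2⟩ := alphaPairs_card' K δ hK0 hδ0
  obtain ⟨C3, hC31, hC3⟩ := curvePairs_card K δ hK0 hδ0
  have hlog2 : 0 < Real.log 2 := Real.log_pos (by norm_num)
  set C4 : ℝ := K / (δ * Real.log 2) with hC4
  have hC40 : 0 < C4 := by positivity
  set Ct : ℝ := 3 * C1 ^ 2 + 3 * (C3 * C4) + 30006 * (3 * C2) with hCt
  have hCt1 : 1 ≤ Ct := by
    have h1 : 0 < C1 ^ 2 := by positivity
    have h2 : 0 < C3 * C4 := by positivity
    rw [hCt]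
    nlinarith
  refine ⟨Ct, max 2 Y2, hCt1, ?_⟩
  intro Y hY c
  have hY2 : 2 ≤ Y := (le_max_left _ _).trans hY
  have hYY2 : Y2 ≤ Y := (le_max_right _ _).trans hY
  have hY1 : 1 < Y := by linarith
  have hY1' : 1 ≤ Y := by linarith
  have hY0 : 0 < Y := by linarith
  have hlogY : 0 < Real.log Y := Real.log_pos hY1
  set X : ℕ := ⌊Y ^ K⌋₊ with hX
  have hXle : (X : ℝ) ≤ Y ^ K := rpow_floor_le hY0.le
  set Q := Qcell2 K Y c with hQ
  rcases Q.eq_empty_or_nonempty with hQe | ⟨q0, hq0⟩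
  · rw [hQe]
    simp only [card_empty, Nat.cast_zero]
    positivity
  set u1 : ℝ := η * c.1 with hu1
  set u2 : ℝ := η * c.2.1 with hu2
  set u3 : ℝ := η * c.2.2 with hu3
  have hmem : ∀ t ∈ Q, t.1 ∈ radSet X (Y ^ u1) ∧ t.2.1 ∈ radSet X (Y ^ u2) ∧
      t.2.2 ∈ radSet X (Y ^ u3) := by
    intro t ht
    obtain ⟨⟨h1, h2, h3⟩, -, -, -, -, -, -, -, hc1, hc2, hc3⟩ := mem_Qcell2 ht
    refine ⟨mem_radSet.2 ⟨h1, ?_⟩, mem_radSet.2 ⟨h2, ?_⟩, mem_radSet.2 ⟨h3, ?_⟩⟩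
    · rw [hu1, ← hc1]; exact le_rpow_cell hη0 hY1 (rad_pos _)
    · rw [hu2, ← hc2]; exact le_rpow_cell hη0 hY1 (rad_pos _)
    · rw [hu3, ← hc3]; exact le_rpow_cell hη0 hY1 (rad_pos _)
  have hRel : ∀ t ∈ Q, Rel t.1 t.2.1 t.2.2 := fun t ht => (mem_Qcell2 ht).2.1
  -- constraints
  obtain ⟨-, -, -, -, hr1, hr2, hr3, -, hc1, hc2, hc3⟩ := mem_Qcell2 hq0
  have hu12 : u1 ≤ u2 := by
    rw [hu1, hu2, ← hc1, ← hc2]
    apply mul_le_mul_of_nonneg_left _ hη0.le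
    exact_mod_cast cell_mono hη0 hY1 (rad_pos _) hr1
  have hu13 : u1 ≤ u3 := by
    rw [hu1, hu3, ← hc1, ← hc3]
    apply mul_le_mul_of_nonneg_left _ hη0.le
    exact_mod_cast cell_mono hη0 hY1 (rad_pos _) hr2
  have hsum : u1 + u2 + u3 ≤ 10003 / 10000 := by
    rw [hu1, hu2, hu3, ← hc1, ← hc2, ← hc3]
    exact cell_sum_le hY1 (rad_pos _) (rad_pos _) (rad_pos _) hr3
  have hpair : ∀ a b : ℝ, a + b ≤ 5985 / 10000 →
      ((radSet X (Y ^ a) ×ˢ radSet X (Y ^ b)).card : ℝ) ≤ C1 ^ 2 * Y ^ (5987 / 10000 : ℝ) := by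
    intro a b hab
    rw [Finset.card_product]
    push_cast
    calc ((radSet X (Y ^ a)).card : ℝ) * (radSet X (Y ^ b)).card
        ≤ (C1 * Y ^ (a + δ)) * (C1 * Y ^ (b + δ)) := by
          gcongr
          · exact hC1 Y a hY1'
          · exact hC1 Y b hY1'
      _ = C1 ^ 2 * (Y ^ (a + δ) * Y ^ (b + δ)) := by ring
      _ = C1 ^ 2 * Y ^ ((a + δ) + (b + δ)) := by rw [← Real.rpow_add hY0]
      _ ≤ _ := by
          apply mul_le_mul_of_nonneg_left _ (by positivity)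
          apply Real.rpow_le_rpow_of_exponent_le hY1'
          rw [hδ]; linarith
  have hYp : 0 < Y ^ (5987 / 10000 : ℝ) := by positivity
  have hC1t : 3 * C1 ^ 2 ≤ Ct := by
    have h2 : 0 < C3 * C4 := by positivity
    rw [hCt]
    nlinarith
  rcases le_or_gt (u1 + u2) (5985 / 10000) with h12 | h12
  · have h1 := proj_card_xy Q hRel (radSet X (Y ^ u1) ×ˢ radSet X (Y ^ u2))
      (fun t ht => mem_product.2 ⟨(hmem t ht).1, (hmem t ht).2.1⟩)
    have h2 := hpair u1 u2 h12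
    calc (Q.card : ℝ) ≤ 3 * ((radSet X (Y ^ u1) ×ˢ radSet X (Y ^ u2)).card : ℝ) := by
          exact_mod_cast h1
      _ ≤ 3 * (C1 ^ 2 * Y ^ (5987 / 10000 : ℝ)) := by gcongr
      _ = (3 * C1 ^ 2) * Y ^ (5987 / 10000 : ℝ) := by ring
      _ ≤ _ := by gcongr
  rcases le_or_gt (u1 + u3) (5985 / 10000) with h13 | h13
  · have h1 := proj_card_xn Q hRel (radSet X (Y ^ u1) ×ˢ radSet X (Y ^ u3))
      (fun t ht => mem_product.2 ⟨(hmem t ht).1, (hmem t ht).2.2⟩)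
    have h2 := hpair u1 u3 h13
    calc (Q.card : ℝ) ≤ 3 * ((radSet X (Y ^ u1) ×ˢ radSet X (Y ^ u3)).card : ℝ) := by
          exact_mod_cast h1
      _ ≤ 3 * (C1 ^ 2 * Y ^ (5987 / 10000 : ℝ)) := by gcongr
      _ = (3 * C1 ^ 2) * Y ^ (5987 / 10000 : ℝ) := by ring
      _ ≤ _ := by gcongr
  rcases le_or_gt (u2 + u3) (5985 / 10000) with h23 | h23
  · have h1 := proj_card_yn Q hRel (radSet X (Y ^ u2) ×ˢ radSet X (Y ^ u3))
      (fun t ht => mem_product.2 ⟨(hmem t ht).2.1, (hmem t ht).2.2⟩)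
    have h2 := hpair u2 u3 h23
    calc (Q.card : ℝ) ≤ 3 * ((radSet X (Y ^ u2) ×ˢ radSet X (Y ^ u3)).card : ℝ) := by
          exact_mod_cast h1
      _ ≤ 3 * (C1 ^ 2 * Y ^ (5987 / 10000 : ℝ)) := by gcongr
      _ = (3 * C1 ^ 2) * Y ^ (5987 / 10000 : ℝ) := by ring
      _ ≤ _ := by gcongr
  -- the main case
  have hu2le : u2 ≤ 4018 / 10000 := by linarith
  have hu3le : u3 ≤ 4018 / 10000 := by linarith
  have hu1le : u1 ≤ 4018 / 10000 := by linarith
  set R0 : ℝ := r0 u1 u2 u3 with hR0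
  have hR0a : 15 / 100 ≤ R0 := by
    rw [hR0, r0]
    have := le_max_right u2 (u1 + u2 / 2)
    linarith
  set k0 : ℕ := ⌊K * Real.log Y / Real.log 2⌋₊ with hk0
  have hk0le : (k0 : ℝ) ≤ C4 * Y ^ δ := by
    have h1 : (k0 : ℝ) ≤ K * Real.log Y / Real.log 2 := Nat.floor_le (by positivity)
    have h2 : Real.log Y ≤ Y ^ δ / δ := Real.log_le_rpow_div hY0.le hδ0
    calc (k0 : ℝ) ≤ K * Real.log Y / Real.log 2 := h1
      _ ≤ K * (Y ^ δ / δ) / Real.log 2 := by gcongr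
      _ = C4 * Y ^ δ := by rw [hC4]; field_simp
  set I : Finset (ℕ × ℕ) := (range 3 ×ˢ range 10002).filter (fun j => Good u1 u2 u3 j.1 j.2)
    with hI
  set Q0 := Q.filter (fun t : ℕ × ℕ × ℕ =>
    (t.1, t.2.1) ∈ curvePairs K Y (u3 - R0) u1 u2 k0) with hQ0
  set Q2 : ℕ × ℕ → Finset (ℕ × ℕ × ℕ) := fun j => Q.filter (fun t : ℕ × ℕ × ℕ =>
    (t.1, t.2.1) ∈ alphaPairs K Y (sg u3 j.1 (1 / 10000 * j.2)) (η * j.2) u1 u2) with hQ2
  have hcover : Q ⊆ Q0 ∪ I.biUnion Q2 := by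
    rintro ⟨x, y, n⟩ ht
    obtain ⟨⟨hx1, hy1, hn1⟩, hrel, hcx, hcy, -, -, hr3', hn, hcc1, hcc2, hcc3⟩ := mem_Qcell2 ht
    obtain ⟨hmx, hmy, hmn⟩ := hmem _ ht
    simp only at hx1 hy1 hn1 hrel hcx hcy hr3' hn hcc1 hcc2 hcc3 hmx hmy hmn
    have hnX : (n : ℝ) ≤ X := by exact_mod_cast hn1.2
    have hradn : (rad n : ℝ) ≤ Y ^ u3 := (mem_radSet.1 hmn).2
    have hradnY : (rad n : ℝ) ≤ Y := by
      refine le_trans ?_ hr3'
      exact_mod_cast (three_le_prod (rad_pos x) (rad_pos y) (rad_pos n)).2.2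
    have hT0 : (1 : ℝ) < Y ^ R0 := Real.one_lt_rpow hY1 (by linarith)
    have hT1 : (1 : ℝ) < Y ^ (7 / 100 : ℝ) := Real.one_lt_rpow hY1 (by norm_num)
    have hmax : max (Y ^ R0) ((Y ^ (7 / 100 : ℝ)) ^ 2) ≤ Y ^ (max R0 (2 * (7 / 100))) := by
      apply max_le
      · exact Real.rpow_le_rpow_of_exponent_le hY1' (le_max_left _ _)
      · rw [← Real.rpow_natCast, ← Real.rpow_mul hY0.le]
        apply Real.rpow_le_rpow_of_exponent_le hY1'
        refine le_trans (le_of_eq ?_) (le_max_right _ _)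
        push_cast
        ring
    -- membership for a divisor
    have hα : ∀ (i α : ℕ), i < 3 → α ∣ n → Y ^ (sg u3 i (1 / 10000 * cell η Y (rad α))) ≤ α →
        Good u1 u2 u3 i (cell η Y (rad α)) → (x, y, n) ∈ Q0 ∪ I.biUnion Q2 := by
      intro i α hi hαn hσ hg
      have hα1 : 1 ≤ α := Nat.pos_of_dvd_of_pos hαn (by omega)
      have hαr : rad α ≤ rad n := by
        unfold rad
        exact Finset.prod_le_prod_of_subset_of_one_le' (Nat.primeFactors_mono hαn (by omega))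
          (fun p hp _ => (Nat.prime_of_mem_primeFactors hp).one_lt.le)
      rw [mem_union]
      right
      rw [mem_biUnion]
      refine ⟨(i, cell η Y (rad α)), ?_, ?_⟩
      · rw [hI, mem_filter, mem_product, mem_range, mem_range]
        refine ⟨⟨hi, ?_⟩, hg⟩
        have h1 := cell_le hη0 hY1 (rad_pos α)
        have h2 : Real.log (rad α) / Real.log Y ≤ 1 := by
          rw [div_le_one hlogY]
          apply Real.log_le_log (by exact_mod_cast rad_pos α)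
          exact le_trans (by exact_mod_cast hαr) hradnY
        have h3 : (cell η Y (rad α) : ℝ) ≤ 10001 := by
          rw [hη] at h1 ⊢
          linarith
        have h4 : cell η Y (rad α) ≤ 10001 := by exact_mod_cast h3
        simp only
        omega
      · simp only [hQ2]
        rw [mem_filter]
        refine ⟨ht, ?_⟩
        rw [mem_alphaPairs]
        refine ⟨α, ?_, hσ, mem_pairSet_of_dvd hmx hmy hrel hcx hαn⟩
        rw [mem_radSet]
        exact ⟨⟨hα1, (Nat.le_of_dvd (by omega) hαn).trans hn1.2⟩,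
          le_rpow_cell hη0 hY1 (rad_pos α)⟩
    -- bounds for the cell
    have hcell_up : ∀ (α : ℕ) (e : ℝ), (rad α : ℝ) ≤ Y ^ e → 1 / 10000 * (cell η Y (rad α) : ℝ) ≤
        e + 1 / 10000 := by
      intro α e h
      have h1 := cell_le hη0 hY1 (rad_pos α)
      have h2 : Real.log (rad α) / Real.log Y ≤ e := by
        rw [div_le_iff₀ hlogY, ← Real.log_rpow hY0]
        exact Real.log_le_log (by exact_mod_cast rad_pos α) h
      rw [hη] at h1
      rw [hη]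
      linarith
    have hcell_low : ∀ (α : ℕ) (e : ℝ), Y ^ e ≤ (rad α : ℝ) →
        e ≤ 1 / 10000 * (cell η Y (rad α) : ℝ) := by
      intro α e h
      have h1 : Y ^ e ≤ Y ^ (η * (cell η Y (rad α) : ℝ)) :=
        h.trans (le_rpow_cell hη0 hY1 (rad_pos α))
      rwa [Real.rpow_le_rpow_left_iff hY1] at h1
    have hcell_sub : ∀ α : ℕ, Y ^ (1 / 10000 * (cell η Y (rad α) : ℝ) - 1 / 10000) ≤
        (rad α : ℝ) := fun α => rpow_cell_sub_le hη0 hY1 (rad_pos α)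
    have hpw : ∀ (α k : ℕ), rad α ^ k ≤ α →
        Y ^ ((k : ℝ) * (1 / 10000 * (cell η Y (rad α) : ℝ) - 1 / 10000)) ≤ (α : ℝ) := by
      intro α k h
      calc Y ^ ((k : ℝ) * (1 / 10000 * (cell η Y (rad α) : ℝ) - 1 / 10000)) =
            (Y ^ (1 / 10000 * (cell η Y (rad α) : ℝ) - 1 / 10000)) ^ k := by
              rw [← Real.rpow_natCast, ← Real.rpow_mul hY0.le]
              congr 1
              ring
        _ ≤ (rad α : ℝ) ^ k := pow_le_pow_left₀ (by positivity) (hcell_sub α) k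
        _ ≤ (α : ℝ) := by exact_mod_cast h
    rcases split3 n hn1.1 (Y ^ R0) (Y ^ (7 / 100 : ℝ)) hT0 hT1 with
      ⟨z, k, w, hk, hz, hw, hnw, hrad, hzT⟩ | ⟨α, hαn, hα3, hαT1, hαT0⟩ |
      ⟨α, hαn, hα2, hαT1, hαT0⟩ | ⟨α, hαn, hα2, hαT0, hαr⟩
    · rw [mem_union]
      left
      rw [hQ0, mem_filter]
      refine ⟨ht, ?_⟩
      have hzkn : z ^ k ∣ n := ⟨w, by rw [hnw]; ring⟩
      have hwn : w ∣ n := ⟨z ^ k, hnw⟩
      rw [mem_curvePairs]
      refine ⟨w, ?_, k, ?_, ?_⟩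
      · rw [mem_radSet]
        refine ⟨⟨hw, (Nat.le_of_dvd (by omega) hwn).trans hn1.2⟩, ?_⟩
        have h2 : (rad w : ℝ) * Y ^ R0 ≤ Y ^ (u3 - R0) * Y ^ R0 := by
          calc (rad w : ℝ) * Y ^ R0 ≤ (rad w : ℝ) * z := by gcongr
            _ = (rad n : ℝ) := by rw [hrad]; push_cast; ring
            _ ≤ Y ^ u3 := hradn
            _ = _ := by rw [← Real.rpow_add hY0]; congr 1; ring
        exact le_of_mul_le_mul_right h2 (by positivity)
      · rw [mem_Icc]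
        refine ⟨hk, ?_⟩
        rw [hk0]
        apply Nat.le_floor
        rw [le_div_iff₀ hlog2]
        have h1 : ((2 : ℝ)) ^ k ≤ Y ^ K := by
          calc (2 : ℝ) ^ k ≤ (z : ℝ) ^ k := by
                gcongr
                exact_mod_cast hz
            _ ≤ (n : ℝ) := by exact_mod_cast Nat.le_of_dvd (by omega) hzkn
            _ ≤ Y ^ K := hnX.trans hXle
        have h2 := Real.log_le_log (by positivity) h1
        rw [Real.log_pow, Real.log_rpow hY0] at h2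
        exact h2
      · rw [curveSet, mem_filter, mem_product]
        refine ⟨⟨hmx, hmy⟩, z, by omega, ?_⟩
        simp only
        rw [← hnw]
        exact hrel
    · have e1 := hcell_low α _ hαT1
      have e2 := hcell_up α _ (hαT0.trans hmax)
      have e3 : sg u3 0 (1 / 10000 * (cell η Y (rad α) : ℝ)) =
          3 * (1 / 10000 * (cell η Y (rad α) : ℝ) - 1 / 10000) := by simp [sg]
      refine hα 0 α (by norm_num) hαn ?_ ⟨?_, ?_⟩
      · rw [e3]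
        have := hpw α 3 hα3
        push_cast at this
        exact this
      · rw [e3]; linarith
      · rw [e3]
        exact num2 hu12 hu13 hsum h12.le h13.le h23.le e1 e2
    · have e1 : Y ^ (R0 - 7 / 100) ≤ (rad α : ℝ) := by
        rw [Real.rpow_sub hY0, div_le_iff₀ (by positivity), mul_comm]
        exact hαT1
      have e1' := hcell_low α _ e1
      have e2 := hcell_up α _ hαT0
      have e3 : sg u3 1 (1 / 10000 * (cell η Y (rad α) : ℝ)) =
          2 * (1 / 10000 * (cell η Y (rad α) : ℝ) - 1 / 10000) := by simp [sg]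
      refine hα 1 α (by norm_num) hαn ?_ ⟨?_, ?_⟩
      · rw [e3]
        have := hpw α 2 hα2
        push_cast at this
        exact this
      · rw [e3]; linarith
      · rw [e3]
        exact num3 hu12 hu13 hsum h12.le h13.le h23.le e1' e2
    · have e2 := hcell_up α _ hαT0
      have e0 : (0 : ℝ) ≤ 1 / 10000 * (cell η Y (rad α) : ℝ) := by positivity
      have e3 : sg u3 2 (1 / 10000 * (cell η Y (rad α) : ℝ)) =
          max (2 * (1 / 10000 * (cell η Y (rad α) : ℝ) - 1 / 10000))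
            (529 / 1000 - u3 + (1 / 10000 * (cell η Y (rad α) : ℝ) - 1 / 10000)) := by
        simp [sg]
      refine hα 2 α (by norm_num) hαn ?_ ⟨?_, ?_⟩
      · rw [e3]
        have h1 := hpw α 2 hα2
        push_cast at h1
        have h2 : Y ^ (529 / 1000 - u3 + (1 / 10000 * (cell η Y (rad α) : ℝ) - 1 / 10000)) ≤
            (α : ℝ) := by
          have h3 : (α : ℝ) * rad n = n * rad α := by exact_mod_cast hαr
          have h4 : Y ^ (529 / 1000 : ℝ) *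
              Y ^ (1 / 10000 * (cell η Y (rad α) : ℝ) - 1 / 10000) ≤ (α : ℝ) * Y ^ u3 := by
            calc _ ≤ (n : ℝ) * rad α := by
                  gcongr
                  exact hcell_sub α
              _ = (α : ℝ) * rad n := h3.symm
              _ ≤ (α : ℝ) * Y ^ u3 := by gcongr
          have h5 : Y ^ (529 / 1000 - u3 + (1 / 10000 * (cell η Y (rad α) : ℝ) - 1 / 10000)) *
              Y ^ u3 = Y ^ (529 / 1000 : ℝ) *
                Y ^ (1 / 10000 * (cell η Y (rad α) : ℝ) - 1 / 10000) := by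
            rw [← Real.rpow_add hY0, ← Real.rpow_add hY0]
            congr 1
            ring
          rw [← h5] at h4
          exact le_of_mul_le_mul_right h4 (by positivity)
        rcases max_choice (2 * (1 / 10000 * (cell η Y (rad α) : ℝ) - 1 / 10000))
            (529 / 1000 - u3 + (1 / 10000 * (cell η Y (rad α) : ℝ) - 1 / 10000)) with h | h
        · rw [h]; exact h1
        · rw [h]; exact h2
      · rw [e3]
        refine le_trans ?_ (le_max_right _ _)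
        linarith
      · rw [e3]
        exact num4 hu12 hu13 hsum h12.le h13.le h23.le e0 e2 (le_max_left _ _) (le_max_right _ _)
  -- counting
  have hQ0c : (Q0.card : ℝ) ≤ 3 * (C3 * C4) * Y ^ (5987 / 10000 : ℝ) := by
    have h1 := proj_card_xy Q0 (fun t ht => hRel t (mem_filter.1 ht).1)
      (curvePairs K Y (u3 - R0) u1 u2 k0) (fun t ht => (mem_filter.1 ht).2)
    have h2 := hC3 Y hY1' (u3 - R0) u1 u2 k0
    calc (Q0.card : ℝ) ≤ 3 * ((curvePairs K Y (u3 - R0) u1 u2 k0).card : ℝ) := by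
          exact_mod_cast h1
      _ ≤ 3 * (C3 * k0 * Y ^ ((u3 - R0) + max u2 (u1 + u2 / 2) + 4 * δ)) := by gcongr
      _ ≤ 3 * (C3 * (C4 * Y ^ δ) * Y ^ ((u3 - R0) + max u2 (u1 + u2 / 2) + 4 * δ)) := by gcongr
      _ = 3 * (C3 * C4) * Y ^ (δ + ((u3 - R0) + max u2 (u1 + u2 / 2) + 4 * δ)) := by
          rw [Real.rpow_add hY0 δ]; ring
      _ ≤ _ := by
          apply mul_le_mul_of_nonneg_left _ (by positivity)
          apply Real.rpow_le_rpow_of_exponent_le hY1'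
          rw [hR0, r0, hδ]
          linarith
  have hQ2c : ∀ j ∈ I, ((Q2 j).card : ℝ) ≤ 3 * C2 * Y ^ (5987 / 10000 : ℝ) := by
    rintro ⟨i, s⟩ hj
    rw [hI, mem_filter] at hj
    obtain ⟨-, hg1, hg2⟩ := hj
    simp only at hg1 hg2
    have h1 := proj_card_xy (Q2 (i, s)) (fun t ht => hRel t (mem_filter.1 ht).1)
      (alphaPairs K Y (sg u3 i (1 / 10000 * s)) (η * s) u1 u2) (fun t ht => (mem_filter.1 ht).2)
    have h2 := hC2 Y hYY2 (sg u3 i (1 / 10000 * s)) (η * s) u1 u2 hg1 (by rw [hδ]; linarith)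
      (by rw [hδ]; linarith)
    calc ((Q2 (i, s)).card : ℝ) ≤
          3 * ((alphaPairs K Y (sg u3 i (1 / 10000 * s)) (η * s) u1 u2).card : ℝ) := by
          exact_mod_cast h1
      _ ≤ 3 * (C2 * Y ^ (η * s + (eE (sg u3 i (1 / 10000 * s)) (u1 + δ) +
            eE (sg u3 i (1 / 10000 * s)) (u2 + δ)) / 2 + 5 * δ)) := by gcongr
      _ ≤ 3 * (C2 * Y ^ (5987 / 10000 : ℝ)) := by
          apply mul_le_mul_of_nonneg_left _ (by norm_num)
          apply mul_le_mul_of_nonneg_left _ (by linarith)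
          apply Real.rpow_le_rpow_of_exponent_le hY1'
          rw [hη, hδ]
          linarith
      _ = _ := by ring
  have hIc : (I.card : ℝ) ≤ 30006 := by
    have h1 : I.card ≤ (range 3 ×ˢ range 10002).card := Finset.card_filter_le _ _
    rw [Finset.card_product, Finset.card_range, Finset.card_range] at h1
    have h2 : I.card ≤ 30006 := by omega
    exact_mod_cast h2
  have hfin : (Q.card : ℝ) ≤ (Q0.card : ℝ) + ∑ j ∈ I, ((Q2 j).card : ℝ) := by
    have h1 : Q.card ≤ Q0.card + ∑ j ∈ I, (Q2 j).card :=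
      (Finset.card_le_card hcover).trans ((Finset.card_union_le _ _).trans
        (Nat.add_le_add_left Finset.card_biUnion_le _))
    exact_mod_cast h1
  calc (Q.card : ℝ) ≤ (Q0.card : ℝ) + ∑ j ∈ I, ((Q2 j).card : ℝ) := hfin
    _ ≤ 3 * (C3 * C4) * Y ^ (5987 / 10000 : ℝ) +
        ∑ j ∈ I, 3 * C2 * Y ^ (5987 / 10000 : ℝ) :=
        add_le_add hQ0c (Finset.sum_le_sum hQ2c)
    _ = (3 * (C3 * C4) + I.card * (3 * C2)) * Y ^ (5987 / 10000 : ℝ) := by
        rw [Finset.sum_const, nsmul_eq_mul]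
        ring
    _ ≤ Ct * Y ^ (5987 / 10000 : ℝ) := by
        apply mul_le_mul_of_nonneg_right _ hYp.le
        rw [hCt]
        have h1 : 0 ≤ C1 ^ 2 := by positivity
        have h2 : (I.card : ℝ) * (3 * C2) ≤ 30006 * (3 * C2) :=
          mul_le_mul_of_nonneg_right hIc (by positivity)
        linarith

end Pool.Agent.Lib.AbcX
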