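import Mathlib

/-!
# The exponent of the energy

`eE σ W` is a piecewise linear upper bound for the exponent of the number of congruent pairs modulo
an integer `≥ Y ^ σ` in a box of volume `Y ^ W`: the ideal value is `max W (2 W - σ)`, the rest is
the loss from the integrality of the moments.
-/

set_option autoImplicit false

namespace Pool.Agent.Lib.AbcX

/-- The exponent. -/
noncomputable def eE (σ W : ℝ) : ℝ :=
  max W (max (1168 / 1000 * W - 84 / 1000 * σ) (max (146 / 100 * W - 2884 / 10000 * σ)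
    (max (17045 / 10000 * W - 5329 / 10000 * σ) (max (1911 / 1000 * W - 822 / 1000 * σ)
      (2 * W - σ)))))

theorem le_eE (σ W : ℝ) : W ≤ eE σ W := le_max_left _ _

theorem le_eE1 (σ W : ℝ) : 1168 / 1000 * W - 84 / 1000 * σ ≤ eE σ W :=
  (le_max_left _ _).trans (le_max_right _ _)

theorem le_eE2 (σ W : ℝ) : 146 / 100 * W - 2884 / 10000 * σ ≤ eE σ W :=
  (le_max_left _ _).trans ((le_max_right _ _).trans (le_max_right _ _))

theorem le_eE3 (σ W : ℝ) : 17045 / 10000 * W - 5329 / 10000 * σ ≤ eE σ W :=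
  (le_max_left _ _).trans ((le_max_right _ _).trans ((le_max_right _ _).trans (le_max_right _ _)))

theorem le_eE4 (σ W : ℝ) : 1911 / 1000 * W - 822 / 1000 * σ ≤ eE σ W :=
  (le_max_left _ _).trans ((le_max_right _ _).trans ((le_max_right _ _).trans
    ((le_max_right _ _).trans (le_max_right _ _))))

theorem le_eE5 (σ W : ℝ) : 2 * W - σ ≤ eE σ W :=
  (le_max_right _ _).trans ((le_max_right _ _).trans ((le_max_right _ _).trans
    ((le_max_right _ _).trans (le_max_right _ _))))

theorem eE_le {σ W E : ℝ} (h0 : W ≤ E) (h1 : 1168 / 1000 * W - 84 / 1000 * σ ≤ E)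
    (h2 : 146 / 100 * W - 2884 / 10000 * σ ≤ E) (h3 : 17045 / 10000 * W - 5329 / 10000 * σ ≤ E)
    (h4 : 1911 / 1000 * W - 822 / 1000 * σ ≤ E) (h5 : 2 * W - σ ≤ E) : eE σ W ≤ E :=
  max_le h0 (max_le h1 (max_le h2 (max_le h3 (max_le h4 h5))))

theorem eE_cases (σ W : ℝ) : eE σ W = W ∨ eE σ W = 1168 / 1000 * W - 84 / 1000 * σ ∨
    eE σ W = 146 / 100 * W - 2884 / 10000 * σ ∨ eE σ W = 17045 / 10000 * W - 5329 / 10000 * σ ∨
    eE σ W = 1911 / 1000 * W - 822 / 1000 * σ ∨ eE σ W = 2 * W - σ := by
  have aux : ∀ a b : ℝ, ∀ P : Prop, (max a b = b → P) → (max a b = a ∨ P) := by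
    intro a b P h
    rcases max_choice a b with h1 | h1
    · exact Or.inl h1
    · exact Or.inr (h h1)
  unfold eE
  apply aux
  intro h1
  rw [h1]
  apply aux
  intro h2
  rw [h2]
  apply aux
  intro h3
  rw [h3]
  apply aux
  intro h4
  rw [h4]
  exact max_choice _ _

theorem eE_mono {σ W W' : ℝ} (h : W ≤ W') : eE σ W ≤ eE σ W' := by
  apply eE_le
  · exact h.trans (le_eE σ W')
  · refine le_trans ?_ (le_eE1 σ W'); linarith
  · refine le_trans ?_ (le_eE2 σ W'); linarith
  · refine le_trans ?_ (le_eE3 σ W'); linarith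
  · refine le_trans ?_ (le_eE4 σ W'); linarith
  · refine le_trans ?_ (le_eE5 σ W'); linarith

theorem eE_anti {σ σ' W : ℝ} (h : σ ≤ σ') : eE σ' W ≤ eE σ W := by
  apply eE_le
  · exact le_eE σ W
  · refine le_trans ?_ (le_eE1 σ W); linarith
  · refine le_trans ?_ (le_eE2 σ W); linarith
  · refine le_trans ?_ (le_eE3 σ W); linarith
  · refine le_trans ?_ (le_eE4 σ W); linarith
  · refine le_trans ?_ (le_eE5 σ W); linarith

theorem eE_add (σ W : ℝ) {t : ℝ} (ht : 0 ≤ t) : eE σ (W + t) ≤ eE σ W + 2 * t := by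
  apply eE_le
  · have := le_eE σ W; linarith
  · have := le_eE1 σ W; linarith
  · have := le_eE2 σ W; linarith
  · have := le_eE3 σ W; linarith
  · have := le_eE4 σ W; linarith
  · have := le_eE5 σ W; linarith

/-- The interpolated exponent is at most `eE`. -/
theorem eE_interp {σ A μ W : ℝ} (hσ : 0 ≤ σ) (hμ : 0 < μ) (hμA : μ ≤ A) (hA : A ≤ W)
    (hW : W ≤ A + μ) :
    (A + μ - W) * (A + max 0 (A - σ)) + (W - A) * (A + μ + max 0 (A + μ - σ)) ≤
      μ * eE σ W := by
  have hA0 : 0 < A := lt_of_lt_of_le hμ hμA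
  rcases le_or_gt (A + μ) σ with h1 | h1
  · rw [max_eq_left (by linarith), max_eq_left (by linarith)]
    have h2 := mul_le_mul_of_nonneg_left (le_eE σ W) hμ.le
    nlinarith
  · rcases le_or_gt σ A with h2 | h2
    · rw [max_eq_right (by linarith), max_eq_right (by linarith)]
      have h3 := mul_le_mul_of_nonneg_left (le_eE5 σ W) hμ.le
      nlinarith
    · rw [max_eq_left (by linarith), max_eq_right (by linarith)]
      -- the general line
      have key : ∀ p q : ℝ, ((3 - p) * W + (1 + q) * σ) ^ 2 ≤ 8 * W * σ →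
          (A + μ - W) * (A + 0) + (W - A) * (A + μ + (A + μ - σ)) ≤ μ * (p * W - q * σ) := by
        intro p q hpq
        have h3 : 0 ≤ 2 * A ^ 2 - A * ((3 - p) * W + (1 + q) * σ) + W * σ := by
          nlinarith [sq_nonneg (4 * A - ((3 - p) * W + (1 + q) * σ))]
        have h4 : 0 ≤ (W - A) * (σ - A) * (A - μ) :=
          mul_nonneg (mul_nonneg (by linarith) (by linarith)) (by linarith)
        have h5 : A * ((A + μ - W) * (A + 0) + (W - A) * (A + μ + (A + μ - σ))) ≤
            A * (μ * (p * W - q * σ)) := by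
          have e : A * (μ * (p * W - q * σ)) -
              A * ((A + μ - W) * (A + 0) + (W - A) * (A + μ + (A + μ - σ))) =
              μ * (2 * A ^ 2 - A * ((3 - p) * W + (1 + q) * σ) + W * σ) +
              (W - A) * (σ - A) * (A - μ) := by ring
          have h6 := mul_nonneg hμ.le h3
          linarith
        exact le_of_mul_le_mul_left h5 hA0
      have hlow : 1 / 2 * σ ≤ W := by linarith
      have hhigh : W ≤ 2 * σ := by linarith
      rcases le_or_gt W (7 / 10 * σ) with g1 | g1
      · refine (key (1168 / 1000) (84 / 1000) ?_).trans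
          (mul_le_mul_of_nonneg_left (le_eE1 σ W) hμ.le)
        nlinarith [mul_nonneg (sub_nonneg.2 hlow) (sub_nonneg.2 g1)]
      · rcases le_or_gt W σ with g2 | g2
        · refine (key (146 / 100) (2884 / 10000) ?_).trans
            (mul_le_mul_of_nonneg_left (le_eE2 σ W) hμ.le)
          nlinarith [mul_nonneg (sub_nonneg.2 g1.le) (sub_nonneg.2 g2)]
        · rcases le_or_gt W (14 / 10 * σ) with g3 | g3
          · refine (key (17045 / 10000) (5329 / 10000) ?_).trans
              (mul_le_mul_of_nonneg_left (le_eE3 σ W) hμ.le)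
            nlinarith [mul_nonneg (sub_nonneg.2 g2.le) (sub_nonneg.2 g3)]
          · refine (key (1911 / 1000) (822 / 1000) ?_).trans
              (mul_le_mul_of_nonneg_left (le_eE4 σ W) hμ.le)
            nlinarith [mul_nonneg (sub_nonneg.2 g3.le) (sub_nonneg.2 hhigh)]

end Pool.Agent.Lib.AbcX
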