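import Pool.Agent.Lib.AbcX.Slopes
import Pool.Agent.Lib.AbcL.Transfer

/-!
# Triples with given squarefull parts
-/

set_option autoImplicit false

namespace Pool.Agent.Lib.AbcX

open Finset Pool.Agent.Lib.Pabc2 Pool.Agent.Lib.Pabc1 Pool.Agent.Lib.Pabcv

/-- The quotient of `n` by its radical. -/
def Wq (n : ℕ) : ℕ := n / rad n

theorem Wq_mul (n : ℕ) : Wq n * rad n = n := Nat.div_mul_cancel (rad_dvd n)

theorem Wq_pos {n : ℕ} (hn : 1 ≤ n) : 1 ≤ Wq n := by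
  rcases Nat.eq_zero_or_pos (Wq n) with h | h
  · have := Wq_mul n
    rw [h, zero_mul] at this
    omega
  · exact h

theorem Wq_le (n : ℕ) : Wq n ≤ n := Nat.div_le_self _ _

theorem rad_dvd_rad {m n : ℕ} (h : m ∣ n) (hn : n ≠ 0) : rad m ∣ rad n := by
  unfold rad
  exact Finset.prod_dvd_prod_of_subset _ _ _ (Nat.primeFactors_mono h hn)

theorem Wq_dvd {n : ℕ} (hn : 1 ≤ n) : Wq n * rad (Wq n) ∣ n := by
  have h1 : Wq n ∣ n := ⟨rad n, (Wq_mul n).symm⟩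
  have h2 : rad (Wq n) ∣ rad n := rad_dvd_rad h1 (by omega)
  have h3 := Nat.mul_dvd_mul_left (Wq n) h2
  rwa [Wq_mul] at h3

/-- The index of the lattice. -/
def Dw (w : ℕ × ℕ × ℕ) : ℕ :=
  (w.1 * rad w.1) * (w.2.1 * rad w.2.1) * (w.2.2 * rad w.2.2)

theorem Dw_pos {w : ℕ × ℕ × ℕ} (h1 : 1 ≤ w.1) (h2 : 1 ≤ w.2.1) (h3 : 1 ≤ w.2.2) : 1 ≤ Dw w :=
  Nat.mul_pos (Nat.mul_pos (Nat.mul_pos h1 (rad_pos _)) (Nat.mul_pos h2 (rad_pos _)))
    (Nat.mul_pos h3 (rad_pos _))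

theorem fibre_card (S : Finset (ℕ × ℕ)) (A X : ℕ) (w : ℕ × ℕ × ℕ)
    (hS : ∀ t ∈ S, IsT t ∧ A < 2 * t.1 ∧ t.1 ≤ A ∧ t.2 ≤ X ∧ Wq t.1 = w.1 ∧ Wq t.2 = w.2.1 ∧
      Wq (t.1 + t.2) = w.2.2) :
    (S.card : ℝ) ≤ 1 + 2 * A * X / Dw w := by
  classical
  rcases S.eq_empty_or_nonempty with he | ⟨t0, ht0⟩
  · rw [he, card_empty, Nat.cast_zero]
    positivity
  have hD : 1 ≤ Dw w := by
    obtain ⟨hI, -, -, -, e1, e2, e3⟩ := hS t0 ht0
    obtain ⟨i1, i2, i3⟩ := hI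
    refine Dw_pos ?_ ?_ ?_
    · rw [← e1]; exact Wq_pos i1
    · rw [← e2]; exact Wq_pos (by omega)
    · rw [← e3]; exact Wq_pos (by omega)
  refine slopes_card S A X (Dw w) hD (fun t ht => ⟨(hS t ht).2.1, (hS t ht).2.2.1,
    (hS t ht).2.2.2.1⟩) ?_
  intro t ht t' ht' hne
  obtain ⟨⟨i1, i2, i3⟩, -, -, -, e1, e2, e3⟩ := hS t ht
  obtain ⟨⟨j1, j2, j3⟩, -, -, -, f1, f2, f3⟩ := hS t' ht'
  set m1 := w.1 * rad w.1 with hm1
  set m2 := w.2.1 * rad w.2.1 with hm2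
  set m3 := w.2.2 * rad w.2.2 with hm3
  have d1 : m1 ∣ t.1 := by rw [hm1, ← e1]; exact Wq_dvd i1
  have d1' : m1 ∣ t'.1 := by rw [hm1, ← f1]; exact Wq_dvd j1
  have d2 : m2 ∣ t.2 := by rw [hm2, ← e2]; exact Wq_dvd (by omega)
  have d2' : m2 ∣ t'.2 := by rw [hm2, ← f2]; exact Wq_dvd (by omega)
  have d3 : m3 ∣ t.1 + t.2 := by rw [hm3, ← e3]; exact Wq_dvd (by omega)
  have d3' : m3 ∣ t'.1 + t'.2 := by rw [hm3, ← f3]; exact Wq_dvd (by omega)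
  have c12 : Nat.Coprime m1 m2 :=
    Nat.Coprime.coprime_dvd_left d1 (Nat.Coprime.coprime_dvd_right d2 i3)
  have c13 : Nat.Coprime m1 m3 := by
    refine Nat.Coprime.coprime_dvd_left d1 (Nat.Coprime.coprime_dvd_right d3 ?_)
    exact (Nat.coprime_self_add_right).mpr i3
  have c23 : Nat.Coprime m2 m3 := by
    refine Nat.Coprime.coprime_dvd_left d2 (Nat.Coprime.coprime_dvd_right d3 ?_)
    exact (Nat.coprime_add_self_right).mpr i3.symm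
  set z : ℤ := (t.1 : ℤ) * t'.2 - (t'.1 : ℤ) * t.2 with hz
  have z1 : (m1 : ℤ) ∣ z := by
    apply dvd_sub
    · exact Dvd.dvd.mul_right (by exact_mod_cast d1) _
    · exact Dvd.dvd.mul_right (by exact_mod_cast d1') _
  have z2 : (m2 : ℤ) ∣ z := by
    apply dvd_sub
    · exact Dvd.dvd.mul_left (by exact_mod_cast d2') _
    · exact Dvd.dvd.mul_left (by exact_mod_cast d2) _
  have z3 : (m3 : ℤ) ∣ z := by
    have e : z = (t.1 : ℤ) * ((t'.1 + t'.2 : ℕ) : ℤ) - (t'.1 : ℤ) * ((t.1 + t.2 : ℕ) : ℤ) := by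
      rw [hz]
      push_cast
      ring
    rw [e]
    apply dvd_sub
    · exact Dvd.dvd.mul_left (by exact_mod_cast d3') _
    · exact Dvd.dvd.mul_left (by exact_mod_cast d3) _
  have hdv : Dw w ∣ z.natAbs := by
    have n1 : m1 ∣ z.natAbs := Int.natCast_dvd.mp z1
    have n2 : m2 ∣ z.natAbs := Int.natCast_dvd.mp z2
    have n3 : m3 ∣ z.natAbs := Int.natCast_dvd.mp z3
    exact Nat.Coprime.mul_dvd_of_dvd_of_dvd (Nat.Coprime.mul_left c13 c23)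
      (Nat.Coprime.mul_dvd_of_dvd_of_dvd c12 n1 n2) n3
  have hz0 : z ≠ 0 := by
    intro h0
    apply hne
    have h1 : t.1 * t'.2 = t'.1 * t.2 := by
      have : (t.1 : ℤ) * t'.2 = (t'.1 : ℤ) * t.2 := by linarith
      exact_mod_cast this
    have h2 : t.1 ∣ t'.1 := by
      have : t.1 ∣ t'.1 * t.2 := ⟨t'.2, h1.symm⟩
      exact Nat.Coprime.dvd_of_dvd_mul_right i3 this
    have h3 : t'.1 ∣ t.1 := by
      have : t'.1 ∣ t.1 * t'.2 := ⟨t.2, h1⟩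
      exact Nat.Coprime.dvd_of_dvd_mul_right j3 this
    have h4 : t.1 = t'.1 := Nat.dvd_antisymm h2 h3
    rw [h4] at h1
    have h5 : t'.2 = t.2 := Nat.eq_of_mul_eq_mul_left j1 h1
    exact Prod.ext h4 h5.symm
  have hle : Dw w ≤ z.natAbs := Nat.le_of_dvd (Int.natAbs_pos.mpr hz0) hdv
  have e : |(t.1 : ℝ) * t'.2 - (t'.1 : ℝ) * t.2| = (z.natAbs : ℝ) := by
    rw [Nat.cast_natAbs, hz]
    push_cast
    rfl
  rw [e]
  exact_mod_cast hle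

theorem rd_eq {t : ℕ × ℕ} (h : IsT t) : rd t = rad t.1 * rad t.2 * rad (t.1 + t.2) := by
  obtain ⟨h1, h2, h3⟩ := h
  have e : rd t = rad (t.1 * t.2 * (t.1 + t.2)) := rfl
  have c1 : Nat.Coprime t.1 (t.1 + t.2) := (Nat.coprime_self_add_right).mpr h3
  have c2 : Nat.Coprime t.2 (t.1 + t.2) := (Nat.coprime_add_self_right).mpr h3.symm
  rw [e, rad_mul_coprime (Nat.Coprime.mul_left c1 c2), rad_mul_coprime h3]

/-- The product of the quotients times the radical. -/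
theorem Wq_prod {t : ℕ × ℕ} (h : IsT t) :
    Wq t.1 * Wq t.2 * Wq (t.1 + t.2) * rd t = t.1 * t.2 * (t.1 + t.2) := by
  rw [rd_eq h]
  calc Wq t.1 * Wq t.2 * Wq (t.1 + t.2) * (rad t.1 * rad t.2 * rad (t.1 + t.2))
      = (Wq t.1 * rad t.1) * (Wq t.2 * rad t.2) * (Wq (t.1 + t.2) * rad (t.1 + t.2)) := by ring
    _ = _ := by rw [Wq_mul, Wq_mul, Wq_mul]

end Pool.Agent.Lib.AbcX
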