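import Pool.Agent.Lib.AbcX.Fibre
import Pool.Agent.Lib.Pabcv.RadCount

/-!
# The abc-triples with `c ~ X` and radical `~ R`

At most `C X ^ ε (R / X + X ^ 3 / R)`.
-/

set_option autoImplicit false

namespace Pool.Agent.Lib.AbcX

open Finset Pool.Agent.Lib.Pabc2 Pool.Agent.Lib.Pabc1 Pool.Agent.Lib.Pabcv

theorem sum_inv_rad (σ : ℝ) (hσ : 0 < σ) : ∃ C : ℝ, 1 ≤ C ∧ ∀ X : ℕ, 1 ≤ X →
    ∑ w ∈ Icc 1 X, 1 / (rad w : ℝ) ≤ C * (X : ℝ) ^ σ := by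
  classical
  obtain ⟨C, hC1, hC⟩ := card_rad_eq_le (σ / 2) (by positivity)
  refine ⟨C * (1 + 2 / σ), ?_, fun X hX => ?_⟩
  · have : 0 < 2 / σ := by positivity
    nlinarith
  have hX1 : (1 : ℝ) ≤ X := by exact_mod_cast hX
  have hX0 : (0 : ℝ) < X := by linarith
  have hmaps : ∀ w ∈ Icc 1 X, rad w ∈ Icc 1 X := by
    intro w hw
    rw [mem_Icc] at hw ⊢
    exact ⟨rad_pos w, (rad_le hw.1).trans hw.2⟩
  have h1 : ∑ w ∈ Icc 1 X, 1 / (rad w : ℝ) =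
      ∑ r ∈ Icc 1 X, ∑ w ∈ (Icc 1 X).filter (fun w => rad w = r), 1 / (rad w : ℝ) :=
    (Finset.sum_fiberwise_of_maps_to hmaps _).symm
  rw [h1]
  have h2 : ∀ r ∈ Icc 1 X, ∑ w ∈ (Icc 1 X).filter (fun w => rad w = r), 1 / (rad w : ℝ) ≤
      C * (X : ℝ) ^ (σ / 2) * (r : ℝ)⁻¹ := by
    intro r _
    have e : ∑ w ∈ (Icc 1 X).filter (fun w => rad w = r), 1 / (rad w : ℝ) =
        ∑ w ∈ (Icc 1 X).filter (fun w => rad w = r), (r : ℝ)⁻¹ := by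
      refine Finset.sum_congr rfl fun w hw => ?_
      rw [(mem_filter.1 hw).2, one_div]
    rw [e, Finset.sum_const, nsmul_eq_mul]
    exact mul_le_mul_of_nonneg_right (hC X r) (by positivity)
  refine (Finset.sum_le_sum h2).trans ?_
  rw [← Finset.mul_sum]
  have h3 : ∑ r ∈ Icc 1 X, (r : ℝ)⁻¹ ≤ 1 + Real.log X := by
    have h4 := harmonic_le_one_add_log X
    rw [harmonic_eq_sum_Icc] at h4
    push_cast at h4
    exact h4
  have h5 : Real.log X ≤ (X : ℝ) ^ (σ / 2) / (σ / 2) := Real.log_le_rpow_div hX0.le (by positivity)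
  have h6 : 1 ≤ (X : ℝ) ^ (σ / 2) := Real.one_le_rpow hX1 (by positivity)
  calc C * (X : ℝ) ^ (σ / 2) * ∑ r ∈ Icc 1 X, (r : ℝ)⁻¹
      ≤ C * (X : ℝ) ^ (σ / 2) * ((X : ℝ) ^ (σ / 2) + (X : ℝ) ^ (σ / 2) / (σ / 2)) := by
        apply mul_le_mul_of_nonneg_left _ (by positivity)
        linarith
    _ = C * (1 + 2 / σ) * ((X : ℝ) ^ (σ / 2) * (X : ℝ) ^ (σ / 2)) := by
        field_simp
    _ = C * (1 + 2 / σ) * (X : ℝ) ^ σ := by
        rw [← Real.rpow_add hX0]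
        ring_nf

theorem prod_count (δ : ℝ) (hδ : 0 < δ) : ∃ C : ℝ, 1 ≤ C ∧ ∀ (P : ℕ) (F : Finset (ℕ × ℕ × ℕ)),
    (∀ w ∈ F, 1 ≤ w.1 ∧ 1 ≤ w.2.1 ∧ 1 ≤ w.2.2 ∧ w.1 * w.2.1 * w.2.2 ≤ P) →
    (F.card : ℝ) ≤ C * (P : ℝ) ^ (1 + δ) := by
  classical
  obtain ⟨C, hC1, hC⟩ := Pool.Agent.Lib.P5632c9.card_divisors_le (δ / 2) (by positivity)
  refine ⟨C ^ 2, one_le_pow₀ hC1, fun P F hF => ?_⟩
  rcases F.eq_empty_or_nonempty with he | ⟨w0, hw0⟩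
  · rw [he, card_empty, Nat.cast_zero]
    positivity
  have hP1 : 1 ≤ P := by
    obtain ⟨h1, h2, h3, h4⟩ := hF w0 hw0
    have : 0 < w0.1 * w0.2.1 * w0.2.2 := Nat.mul_pos (Nat.mul_pos h1 h2) h3
    omega
  have hP0 : (0 : ℝ) < P := by exact_mod_cast hP1
  have hmaps : ∀ w ∈ F, w.1 * w.2.1 * w.2.2 ∈ Icc 1 P := by
    intro w hw
    obtain ⟨h1, h2, h3, h4⟩ := hF w hw
    rw [mem_Icc]
    exact ⟨Nat.mul_pos (Nat.mul_pos h1 h2) h3, h4⟩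
  have h1 := Finset.card_eq_sum_card_fiberwise hmaps
  have h2 : ∀ n ∈ Icc 1 P, (((F.filter (fun w => w.1 * w.2.1 * w.2.2 = n)).card : ℕ) : ℝ) ≤
      C ^ 2 * (P : ℝ) ^ δ := by
    intro n hn
    rw [mem_Icc] at hn
    have h3 : (F.filter (fun w => w.1 * w.2.1 * w.2.2 = n)).card ≤
        (n.divisors ×ˢ n.divisors).card := by
      refine Finset.card_le_card_of_injOn (fun w => (w.1, w.2.1)) ?_ ?_
      · intro w hw
        have hw' := mem_filter.1 (Finset.mem_coe.1 hw)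
        rw [Finset.mem_coe, mem_product, Nat.mem_divisors, Nat.mem_divisors]
        refine ⟨⟨⟨w.2.1 * w.2.2, ?_⟩, by omega⟩, ⟨⟨w.1 * w.2.2, ?_⟩, by omega⟩⟩
        · rw [← hw'.2]; ring
        · rw [← hw'.2]; ring
      · intro w hw w' hw' h
        have hw1 := mem_filter.1 (Finset.mem_coe.1 hw)
        have hw2 := mem_filter.1 (Finset.mem_coe.1 hw')
        obtain ⟨g1, g2, g3, -⟩ := hF w hw1.1
        simp only [Prod.mk.injEq] at h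
        have e : w.1 * w.2.1 * w.2.2 = w.1 * w.2.1 * w'.2.2 := by
          rw [hw1.2]
          rw [h.1, h.2]
          exact hw2.2.symm
        have e2 := Nat.eq_of_mul_eq_mul_left (Nat.mul_pos g1 g2) e
        exact Prod.ext h.1 (Prod.ext h.2 e2)
    rw [card_product] at h3
    have h4 : (n.divisors.card : ℝ) ≤ C * (P : ℝ) ^ (δ / 2) := by
      refine (hC n (by omega)).trans ?_
      apply mul_le_mul_of_nonneg_left _ (by linarith)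
      exact Real.rpow_le_rpow (by positivity) (by exact_mod_cast hn.2) (by positivity)
    calc (((F.filter (fun w => w.1 * w.2.1 * w.2.2 = n)).card : ℕ) : ℝ)
        ≤ (n.divisors.card : ℝ) * n.divisors.card := by exact_mod_cast h3
      _ ≤ (C * (P : ℝ) ^ (δ / 2)) * (C * (P : ℝ) ^ (δ / 2)) := by gcongr
      _ = C ^ 2 * ((P : ℝ) ^ (δ / 2) * (P : ℝ) ^ (δ / 2)) := by ring
      _ = C ^ 2 * (P : ℝ) ^ δ := by
          rw [← Real.rpow_add hP0]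
          ring_nf
  calc (F.card : ℝ) = ∑ n ∈ Icc 1 P, (((F.filter (fun w => w.1 * w.2.1 * w.2.2 = n)).card : ℕ) : ℝ) := by
        rw [h1]
        push_cast
        rfl
    _ ≤ ∑ n ∈ Icc 1 P, C ^ 2 * (P : ℝ) ^ δ := Finset.sum_le_sum h2
    _ = C ^ 2 * ((P : ℝ) ^ (1 : ℝ) * (P : ℝ) ^ δ) := by
        rw [Finset.sum_const, nsmul_eq_mul, Nat.card_Icc, Real.rpow_one]
        simp only [Nat.add_sub_cancel]
        ring
    _ = C ^ 2 * (P : ℝ) ^ (1 + δ) := by rw [← Real.rpow_add hP0]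

/-- One scale for the smallest member. -/
theorem scale_count (ε : ℝ) (hε : 0 < ε) : ∃ C : ℝ, 1 ≤ C ∧ ∀ A X R : ℕ, 1 ≤ A → 1 ≤ X → 1 ≤ R →
    ∀ T : Finset (ℕ × ℕ), (∀ t ∈ T, IsT t ∧ rd t ≤ R ∧ R ≤ 2 * rd t ∧ A < 2 * t.1 ∧ t.1 ≤ A ∧
      t.1 + t.2 ≤ X ∧ X ≤ 2 * (t.1 + t.2)) →
    (T.card : ℝ) ≤ C * (X : ℝ) ^ ε * ((R : ℝ) / X + (X : ℝ) ^ 3 / R) := by
  classical
  obtain ⟨C1, hC11, hC1⟩ := sum_inv_rad (ε / 3) (by positivity)
  obtain ⟨C2, hC21, hC2⟩ := prod_count (ε / 3) (by positivity)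
  refine ⟨32 * C1 ^ 3 + 2 * C2 * 2 ^ (ε / 3), ?_, ?_⟩
  · have h1 : 1 ≤ C1 ^ 3 := one_le_pow₀ hC11
    have h2 : 0 < 2 * C2 * (2 : ℝ) ^ (ε / 3) := by positivity
    linarith
  intro A X R hA hX hR T hT
  have hX1 : (1 : ℝ) ≤ X := by exact_mod_cast hX
  have hX0 : (0 : ℝ) < X := by linarith
  have hR0 : (0 : ℝ) < R := by exact_mod_cast hR
  have hA0 : (0 : ℝ) < A := by exact_mod_cast hA
  set F : ℕ × ℕ → ℕ × ℕ × ℕ := fun t => (Wq t.1, Wq t.2, Wq (t.1 + t.2)) with hF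
  set I : Finset (ℕ × ℕ × ℕ) := T.image F with hI
  set S : ℝ := ∑ w ∈ Icc 1 X, 1 / (rad w : ℝ) with hS
  have hS0 : 0 ≤ S := Finset.sum_nonneg fun w _ => by positivity
  -- facts on the image
  have hIm : ∀ w ∈ I, (1 ≤ w.1 ∧ 1 ≤ w.2.1 ∧ 1 ≤ w.2.2) ∧ (w.1 ≤ X ∧ w.2.1 ≤ X ∧ w.2.2 ≤ X) ∧
      w.1 * w.2.1 * w.2.2 * R ≤ 2 * X ^ 3 ∧ A * X ^ 2 ≤ 16 * (w.1 * w.2.1 * w.2.2 * R) := by
    intro w hw
    rw [hI, mem_image] at hw
    obtain ⟨t, ht, rfl⟩ := hw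
    obtain ⟨hIt, r1, r2, a1, a2, c1, c2⟩ := hT t ht
    have hprod := Wq_prod hIt
    obtain ⟨i1, i2, i3⟩ := hIt
    simp only [hF]
    refine ⟨⟨Wq_pos i1, Wq_pos (by omega), Wq_pos (by omega)⟩,
      ⟨(Wq_le _).trans (by omega), (Wq_le _).trans (by omega), (Wq_le _).trans (by omega)⟩, ?_, ?_⟩
    · calc Wq t.1 * Wq t.2 * Wq (t.1 + t.2) * R
          ≤ Wq t.1 * Wq t.2 * Wq (t.1 + t.2) * (2 * rd t) := Nat.mul_le_mul_left _ r2
        _ = 2 * (Wq t.1 * Wq t.2 * Wq (t.1 + t.2) * rd t) := by ring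
        _ = 2 * (t.1 * t.2 * (t.1 + t.2)) := by rw [hprod]
        _ ≤ 2 * (X * X * X) := by
            apply Nat.mul_le_mul_left
            exact Nat.mul_le_mul (Nat.mul_le_mul (by omega) (by omega)) (by omega)
        _ = 2 * X ^ 3 := by ring
    · calc A * X ^ 2 = A * (X * X) := by ring
        _ ≤ (2 * t.1) * ((4 * t.2) * (2 * (t.1 + t.2))) := by
            exact Nat.mul_le_mul a1.le (Nat.mul_le_mul (by omega) (by omega))
        _ = 16 * (t.1 * t.2 * (t.1 + t.2)) := by ring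
        _ = 16 * (Wq t.1 * Wq t.2 * Wq (t.1 + t.2) * rd t) := by rw [hprod]
        _ ≤ 16 * (Wq t.1 * Wq t.2 * Wq (t.1 + t.2) * R) :=
            Nat.mul_le_mul_left _ (Nat.mul_le_mul_left _ r1)
  -- the number of classes
  have hIc : (I.card : ℝ) ≤ C2 * (2 * (X : ℝ) ^ 3 / R) ^ (1 + ε / 3) := by
    have h1 := hC2 (2 * X ^ 3 / R) I (fun w hw => by
      obtain ⟨⟨g1, g2, g3⟩, -, g4, -⟩ := hIm w hw
      exact ⟨g1, g2, g3, (Nat.le_div_iff_mul_le (by omega)).mpr g4⟩)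
    refine h1.trans ?_
    apply mul_le_mul_of_nonneg_left _ (by linarith)
    refine Real.rpow_le_rpow (by positivity) ?_ (by positivity)
    have h2 := Nat.cast_div_le (α := ℝ) (m := 2 * X ^ 3) (n := R)
    push_cast at h2
    exact h2
  -- the fibres
  have hfib : ∀ w ∈ I, (((T.filter (fun t => F t = w)).card : ℕ) : ℝ) ≤
      1 + 2 * A * X / Dw w := by
    intro w hw
    refine fibre_card _ A X w fun t ht => ?_
    rw [mem_filter] at ht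
    obtain ⟨ht1, ht2⟩ := ht
    obtain ⟨hIt, r1, r2, a1, a2, c1, c2⟩ := hT t ht1
    rw [← ht2]
    exact ⟨hIt, a1, a2, by omega, rfl, rfl, rfl⟩
  have hDw : ∀ w ∈ I, 2 * (A : ℝ) * X / Dw w ≤
      32 * (R / X) * (1 / (rad w.1 : ℝ) * (1 / (rad w.2.1 : ℝ) * (1 / (rad w.2.2 : ℝ)))) := by
    intro w hw
    obtain ⟨⟨g1, g2, g3⟩, -, -, g4⟩ := hIm w hw
    have hw1 : (0 : ℝ) < w.1 := by exact_mod_cast g1
    have hw2 : (0 : ℝ) < w.2.1 := by exact_mod_cast g2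
    have hw3 : (0 : ℝ) < w.2.2 := by exact_mod_cast g3
    have r1 : (0 : ℝ) < rad w.1 := by exact_mod_cast rad_pos w.1
    have r2 : (0 : ℝ) < rad w.2.1 := by exact_mod_cast rad_pos w.2.1
    have r3 : (0 : ℝ) < rad w.2.2 := by exact_mod_cast rad_pos w.2.2
    have g4' : (A : ℝ) * X ^ 2 ≤ 16 * (w.1 * w.2.1 * w.2.2 * R) := by exact_mod_cast g4
    have e : (Dw w : ℝ) = (w.1 * w.2.1 * w.2.2) * (rad w.1 * (rad w.2.1 * rad w.2.2)) := by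
      unfold Dw
      push_cast
      ring
    rw [e, div_le_iff₀ (by positivity)]
    have e2 : 32 * ((R : ℝ) / X) * (1 / (rad w.1 : ℝ) * (1 / (rad w.2.1 : ℝ) *
        (1 / (rad w.2.2 : ℝ)))) * ((w.1 * w.2.1 * w.2.2) * (rad w.1 * (rad w.2.1 * rad w.2.2))) =
        2 * (16 * (w.1 * w.2.1 * w.2.2 * R)) / X := by
      field_simp
      ring
    rw [e2, le_div_iff₀ hX0]
    calc 2 * (A : ℝ) * X * X = 2 * (A * X ^ 2) := by ring
      _ ≤ _ := by linarith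
  have hsum3 : ∑ w ∈ I, (1 / (rad w.1 : ℝ) * (1 / (rad w.2.1 : ℝ) * (1 / (rad w.2.2 : ℝ)))) ≤
      S ^ 3 := by
    have h1 : I ⊆ Icc 1 X ×ˢ (Icc 1 X ×ˢ Icc 1 X) := by
      intro w hw
      obtain ⟨⟨g1, g2, g3⟩, ⟨l1, l2, l3⟩, -, -⟩ := hIm w hw
      simp only [mem_product, mem_Icc]
      exact ⟨⟨g1, l1⟩, ⟨g2, l2⟩, ⟨g3, l3⟩⟩
    refine (Finset.sum_le_sum_of_subset_of_nonneg h1 (fun w _ _ => by positivity)).trans ?_
    refine le_of_eq ?_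
    rw [Finset.sum_product]
    have h2 : ∀ x ∈ Icc 1 X, ∑ y ∈ Icc 1 X ×ˢ Icc 1 X,
        (1 / (rad x : ℝ) * (1 / (rad y.1 : ℝ) * (1 / (rad y.2 : ℝ)))) =
        1 / (rad x : ℝ) * (S * S) := by
      intro x _
      rw [← Finset.mul_sum, Finset.sum_product, hS, Finset.sum_mul_sum]
    calc ∑ x ∈ Icc 1 X, ∑ y ∈ Icc 1 X ×ˢ Icc 1 X,
        (1 / (rad x : ℝ) * (1 / (rad y.1 : ℝ) * (1 / (rad y.2 : ℝ))))
        = ∑ x ∈ Icc 1 X, 1 / (rad x : ℝ) * (S * S) := Finset.sum_congr rfl h2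
      _ = S * (S * S) := by rw [← Finset.sum_mul]
      _ = S ^ 3 := by ring
  have hS3 : S ^ 3 ≤ C1 ^ 3 * (X : ℝ) ^ ε := by
    have h1 : S ≤ C1 * (X : ℝ) ^ (ε / 3) := hC1 X hX
    calc S ^ 3 ≤ (C1 * (X : ℝ) ^ (ε / 3)) ^ 3 := pow_le_pow_left₀ hS0 h1 3
      _ = C1 ^ 3 * (X : ℝ) ^ ε := by
          rw [mul_pow]
          congr 1
          rw [← Real.rpow_natCast, ← Real.rpow_mul hX0.le]
          congr 1
          push_cast
          ring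
  have hPow : (2 * (X : ℝ) ^ 3 / R) ^ (1 + ε / 3) ≤ 2 * 2 ^ (ε / 3) * (X : ℝ) ^ ε *
      ((X : ℝ) ^ 3 / R) := by
    have h0 : (0 : ℝ) < 2 * (X : ℝ) ^ 3 / R := by positivity
    have hR1 : (1 : ℝ) ≤ R := by exact_mod_cast hR
    have h1 : (2 * (X : ℝ) ^ 3 / R) ^ (ε / 3) ≤ 2 ^ (ε / 3) * (X : ℝ) ^ ε := by
      calc (2 * (X : ℝ) ^ 3 / R) ^ (ε / 3) ≤ (2 * (X : ℝ) ^ 3) ^ (ε / 3) :=
            Real.rpow_le_rpow h0.le (div_le_self (by positivity) hR1) (by positivity)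
        _ = 2 ^ (ε / 3) * (X : ℝ) ^ ε := by
            rw [Real.mul_rpow (by norm_num) (by positivity), ← Real.rpow_natCast,
              ← Real.rpow_mul hX0.le]
            congr 2
            push_cast
            ring
    rw [Real.rpow_add h0, Real.rpow_one]
    calc 2 * (X : ℝ) ^ 3 / R * (2 * (X : ℝ) ^ 3 / R) ^ (ε / 3)
        ≤ 2 * (X : ℝ) ^ 3 / R * (2 ^ (ε / 3) * (X : ℝ) ^ ε) :=
          mul_le_mul_of_nonneg_left h1 h0.le
      _ = _ := by ring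
  -- conclusion
  have hcard : (T.card : ℝ) = ∑ w ∈ I, (((T.filter (fun t => F t = w)).card : ℕ) : ℝ) := by
    rw [Finset.card_eq_sum_card_image F T]
    push_cast
    rfl
  rw [hcard]
  calc ∑ w ∈ I, (((T.filter (fun t => F t = w)).card : ℕ) : ℝ)
      ≤ ∑ w ∈ I, (1 + 32 * (R / X) *
        (1 / (rad w.1 : ℝ) * (1 / (rad w.2.1 : ℝ) * (1 / (rad w.2.2 : ℝ))))) := by
        refine Finset.sum_le_sum fun w hw => ?_
        have h1 := hfib w hw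
        have h2 := hDw w hw
        linarith
    _ = (I.card : ℝ) + 32 * (R / X) * ∑ w ∈ I,
        (1 / (rad w.1 : ℝ) * (1 / (rad w.2.1 : ℝ) * (1 / (rad w.2.2 : ℝ)))) := by
        rw [Finset.sum_add_distrib, ← Finset.mul_sum, Finset.sum_const, nsmul_eq_mul, mul_one]
    _ ≤ C2 * (2 * 2 ^ (ε / 3) * (X : ℝ) ^ ε * ((X : ℝ) ^ 3 / R)) +
        32 * (R / X) * (C1 ^ 3 * (X : ℝ) ^ ε) := by
        apply add_le_add
        · exact hIc.trans (mul_le_mul_of_nonneg_left hPow (by linarith))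
        · exact mul_le_mul_of_nonneg_left (hsum3.trans hS3) (by positivity)
    _ ≤ _ := by
        have p1 : 0 ≤ C2 * (2 * 2 ^ (ε / 3) * (X : ℝ) ^ ε * ((R : ℝ) / X)) := by positivity
        have p2 : 0 ≤ 32 * ((X : ℝ) ^ 3 / R) * (C1 ^ 3 * (X : ℝ) ^ ε) := by positivity
        have e : (32 * C1 ^ 3 + 2 * C2 * 2 ^ (ε / 3)) * (X : ℝ) ^ ε *
            ((R : ℝ) / X + (X : ℝ) ^ 3 / R) =
            (C2 * (2 * 2 ^ (ε / 3) * (X : ℝ) ^ ε * ((X : ℝ) ^ 3 / R)) +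
              32 * (R / X) * (C1 ^ 3 * (X : ℝ) ^ ε)) +
            (C2 * (2 * 2 ^ (ε / 3) * (X : ℝ) ^ ε * ((R : ℝ) / X)) +
              32 * ((X : ℝ) ^ 3 / R) * (C1 ^ 3 * (X : ℝ) ^ ε)) := by ring
        rw [e]
        linarith

/-- All scales. -/
theorem lattice_count (ε : ℝ) (hε : 0 < ε) : ∃ C : ℝ, 1 ≤ C ∧ ∀ X R : ℕ, 1 ≤ X → 1 ≤ R →
    ∀ T : Finset (ℕ × ℕ), (∀ t ∈ T, IsT t ∧ rd t ≤ R ∧ R ≤ 2 * rd t ∧
      t.1 + t.2 ≤ X ∧ X ≤ 2 * (t.1 + t.2)) →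
    (T.card : ℝ) ≤ C * (X : ℝ) ^ ε * ((R : ℝ) / X + (X : ℝ) ^ 3 / R) := by
  classical
  obtain ⟨C, hC1, hC⟩ := scale_count (ε / 2) (by positivity)
  have hl2 : 0 < Real.log 2 := Real.log_pos (by norm_num)
  refine ⟨C * (2 + 1 / (ε / 2 * Real.log 2)), ?_, ?_⟩
  · have : 0 < 1 / (ε / 2 * Real.log 2) := by positivity
    nlinarith
  intro X R hX hR T hT
  have hX1 : (1 : ℝ) ≤ X := by exact_mod_cast hX
  have hX0 : (0 : ℝ) < X := by linarith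
  set B : ℝ := C * (X : ℝ) ^ (ε / 2) * ((R : ℝ) / X + (X : ℝ) ^ 3 / R) with hB
  have hB0 : 0 ≤ B := by positivity
  set f : ℕ × ℕ → ℕ := fun t => Nat.clog 2 t.1 with hf
  have hmaps : ∀ t ∈ T, f t ∈ range (Nat.log 2 X + 2) := by
    intro t ht
    obtain ⟨⟨i1, i2, i3⟩, -, -, c1, -⟩ := hT t ht
    rw [mem_range]
    have h1 : Nat.clog 2 t.1 ≤ Nat.log 2 X + 1 := by
      rw [Nat.clog_le_iff_le_pow (by norm_num)]
      have h2 : X < 2 ^ (Nat.log 2 X + 1) := Nat.lt_pow_succ_log_self (by norm_num) X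
      omega
    simp only [hf]
    omega
  have hsc : ∀ i ∈ range (Nat.log 2 X + 2), (((T.filter (fun t => f t = i)).card : ℕ) : ℝ) ≤ B := by
    intro i _
    refine hC (2 ^ i) X R Nat.one_le_two_pow hX hR _ fun t ht => ?_
    rw [mem_filter] at ht
    obtain ⟨ht1, ht2⟩ := ht
    obtain ⟨⟨i1, i2, i3⟩, r1, r2, c1, c2⟩ := hT t ht1
    refine ⟨⟨i1, i2, i3⟩, r1, r2, ?_, ?_, c1, c2⟩
    · rw [← ht2]
      simp only [hf]
      by_contra hcon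
      rw [not_lt] at hcon
      have h1 : 1 ≤ Nat.clog 2 t.1 := by
        by_contra h0
        have h2 : Nat.clog 2 t.1 = 0 := by omega
        rw [h2] at hcon
        omega
      obtain ⟨m, hm⟩ : ∃ m, Nat.clog 2 t.1 = m + 1 := ⟨Nat.clog 2 t.1 - 1, by omega⟩
      rw [hm, pow_succ] at hcon
      have h2 : t.1 ≤ 2 ^ m := by omega
      have h3 := (Nat.clog_le_iff_le_pow (by norm_num : 1 < 2)).mpr h2
      omega
    · rw [← ht2]
      exact Nat.le_pow_clog (by norm_num) _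
  have hcard : (T.card : ℝ) =
      ∑ i ∈ range (Nat.log 2 X + 2), (((T.filter (fun t => f t = i)).card : ℕ) : ℝ) := by
    rw [Finset.card_eq_sum_card_fiberwise hmaps]
    push_cast
    rfl
  have hlog : ((Nat.log 2 X : ℕ) : ℝ) ≤ (X : ℝ) ^ (ε / 2) / (ε / 2 * Real.log 2) := by
    have h1 := Real.natLog_le_logb X 2
    have h2 : Real.logb 2 X = Real.log X / Real.log 2 := rfl
    have h3 : Real.log X ≤ (X : ℝ) ^ (ε / 2) / (ε / 2) :=
      Real.log_le_rpow_div hX0.le (by positivity)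
    push_cast at h1
    rw [h2] at h1
    refine h1.trans ?_
    rw [← div_div]
    exact div_le_div_of_nonneg_right h3 hl2.le
  have h6 : 1 ≤ (X : ℝ) ^ (ε / 2) := Real.one_le_rpow hX1 (by positivity)
  rw [hcard]
  calc ∑ i ∈ range (Nat.log 2 X + 2), (((T.filter (fun t => f t = i)).card : ℕ) : ℝ)
      ≤ ∑ i ∈ range (Nat.log 2 X + 2), B := Finset.sum_le_sum hsc
    _ = ((Nat.log 2 X : ℕ) + 2 : ℝ) * B := by
        rw [Finset.sum_const, nsmul_eq_mul, card_range]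
        push_cast
        ring
    _ ≤ ((2 + 1 / (ε / 2 * Real.log 2)) * (X : ℝ) ^ (ε / 2)) * B := by
        apply mul_le_mul_of_nonneg_right _ hB0
        have e : (2 + 1 / (ε / 2 * Real.log 2)) * (X : ℝ) ^ (ε / 2) =
            2 * (X : ℝ) ^ (ε / 2) + (X : ℝ) ^ (ε / 2) / (ε / 2 * Real.log 2) := by ring
        rw [e]
        linarith
    _ = C * (2 + 1 / (ε / 2 * Real.log 2)) * ((X : ℝ) ^ (ε / 2) * (X : ℝ) ^ (ε / 2)) *
        ((R : ℝ) / X + (X : ℝ) ^ 3 / R) := by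
        rw [hB]; ring
    _ = _ := by
        rw [← Real.rpow_add hX0]
        ring_nf

end Pool.Agent.Lib.AbcX
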