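import Pool.Agent.Lib.AbcX.Mid
import Pool.Agent.Lib.AbcX.Lattice
import Pool.Agent.Lib.Pabc14.Final

/-!
# All triples with `c ≥ rad ^ M`, for every `M > 1/3`
-/

set_option autoImplicit false

namespace Pool.Agent.Lib.AbcX

open Finset Filter Topology Pool.Agent.Lib.Pabc2 Pool.Agent.Lib.Pabc1 Pool.Agent.Lib.AbcL

/-- The range `m log n ≤ log c ≤ (53/100) log n` and radical between `n / 2` and `n`. -/
theorem low_range (m : ℝ) (ε : ℝ) (hε : 0 < ε) : ∀ᶠ n : ℕ in atTop, ∀ T : Finset (ℕ × ℕ),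
    (∀ t ∈ T, IsT t ∧ rd t ≤ n ∧ n ≤ 2 * rd t ∧ m * Real.log n ≤ ht t ∧
      ht t ≤ 53 / 100 * Real.log n) →
    (T.card : ℝ) ≤ (n : ℝ) ^ (max (1 - m) (59 / 100) + ε) := by
  classical
  obtain ⟨C, hC1, hC⟩ := lattice_count (ε / 4) (by positivity)
  have hl2 : 0 < Real.log 2 := Real.log_pos (by norm_num)
  have hlim2 : Tendsto (fun n : ℕ => (n : ℝ)) atTop atTop := tendsto_natCast_atTop_atTop
  set Ct : ℝ := C * 2 ^ (ε / 4) * 9 * (2 + 1 / (ε / 4 * Real.log 2)) with hCt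
  have hCt0 : 0 < Ct := by positivity
  filter_upwards [((tendsto_rpow_atTop (show 0 < ε / 4 by positivity)).comp
    hlim2).eventually_ge_atTop Ct, eventually_ge_atTop 2] with n g1 hn2 T hT
  simp only [Function.comp] at g1
  have hn1 : 1 ≤ n := by omega
  have hn1' : (1 : ℝ) ≤ n := by exact_mod_cast hn1
  have hn0 : (0 : ℝ) < n := by linarith
  have hlogn : 0 ≤ Real.log n := Real.log_nonneg hn1'
  set E : ℝ := max (1 - m) (59 / 100) with hE
  -- the size of the largest member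
  have hc : ∀ t ∈ T, (n : ℝ) ^ m ≤ (t.1 : ℝ) + t.2 ∧ (t.1 : ℝ) + t.2 ≤ (n : ℝ) ^ (53 / 100 : ℝ) := by
    intro t ht
    obtain ⟨hI, -, -, h1, h2⟩ := hT t ht
    have hpos : (0 : ℝ) < (t.1 : ℝ) + t.2 := by
      have := hI.1
      positivity
    have e : (t.1 : ℝ) + t.2 = Real.exp (Pabc2.ht t) := by
      unfold Pabc2.ht
      rw [Real.exp_log hpos]
    constructor
    · rw [Real.rpow_def_of_pos hn0, e, Real.exp_le_exp]
      linarith
    · rw [Real.rpow_def_of_pos hn0, e, Real.exp_le_exp]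
      linarith
  set f : ℕ × ℕ → ℕ := fun t => Nat.clog 2 (t.1 + t.2) with hf
  have hmaps : ∀ t ∈ T, f t ∈ range (Nat.log 2 n + 2) := by
    intro t ht
    rw [mem_range]
    have h1 : t.1 + t.2 ≤ n := by
      have h2 := (hc t ht).2
      have h3 : (n : ℝ) ^ (53 / 100 : ℝ) ≤ (n : ℝ) ^ (1 : ℝ) :=
        Real.rpow_le_rpow_of_exponent_le hn1' (by norm_num)
      rw [Real.rpow_one] at h3
      exact_mod_cast h2.trans h3
    have h4 : Nat.clog 2 (t.1 + t.2) ≤ Nat.log 2 n + 1 := by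
      rw [Nat.clog_le_iff_le_pow (by norm_num)]
      have h2 : n < 2 ^ (Nat.log 2 n + 1) := Nat.lt_pow_succ_log_self (by norm_num) n
      omega
    simp only [hf]
    omega
  set B : ℝ := C * (2 * (n : ℝ)) ^ (ε / 4) * (9 * (n : ℝ) ^ E) with hB
  have hB0 : 0 ≤ B := by positivity
  have hsc : ∀ i ∈ range (Nat.log 2 n + 2), (((T.filter (fun t => f t = i)).card : ℕ) : ℝ) ≤ B := by
    intro i _
    rcases (T.filter (fun t => f t = i)).eq_empty_or_nonempty with he | ⟨t0, ht0⟩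
    · rw [he, card_empty, Nat.cast_zero]
      exact hB0
    have hpow : ∀ t ∈ T, f t = i → t.1 + t.2 ≤ 2 ^ i ∧ 2 ^ i ≤ 2 * (t.1 + t.2) := by
      intro t ht hfi
      obtain ⟨hI, -⟩ := hT t ht
      have i1 := hI.1
      rw [← hfi]
      simp only [hf]
      refine ⟨Nat.le_pow_clog (by norm_num) _, ?_⟩
      by_contra hcon
      rw [not_le] at hcon
      have h1 : 1 ≤ Nat.clog 2 (t.1 + t.2) := by
        by_contra h0
        have h2 : Nat.clog 2 (t.1 + t.2) = 0 := by omega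
        rw [h2] at hcon
        omega
      obtain ⟨k, hk⟩ : ∃ k, Nat.clog 2 (t.1 + t.2) = k + 1 := ⟨Nat.clog 2 (t.1 + t.2) - 1, by omega⟩
      rw [hk, pow_succ] at hcon
      have h2 : t.1 + t.2 ≤ 2 ^ k := by omega
      have h3 := (Nat.clog_le_iff_le_pow (by norm_num : 1 < 2)).mpr h2
      omega
    have hX1 : 1 ≤ 2 ^ i := Nat.one_le_two_pow
    have h1 := hC (2 ^ i) n hX1 hn1 (T.filter (fun t => f t = i)) (fun t ht => by
      rw [mem_filter] at ht
      obtain ⟨hI, r1, r2, -, -⟩ := hT t ht.1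
      exact ⟨hI, r1, r2, hpow t ht.1 ht.2⟩)
    rw [mem_filter] at ht0
    obtain ⟨p1, p2⟩ := hpow t0 ht0.1 ht0.2
    obtain ⟨q1, q2⟩ := hc t0 ht0.1
    set Z : ℝ := ((2 ^ i : ℕ) : ℝ) with hZ
    have p1' : (t0.1 : ℝ) + t0.2 ≤ Z := by rw [hZ]; exact_mod_cast p1
    have p2' : Z ≤ 2 * ((t0.1 : ℝ) + t0.2) := by rw [hZ]; exact_mod_cast p2
    have hZ0 : 0 < Z := by
      rw [hZ]
      exact_mod_cast hX1
    have hZlow : (n : ℝ) ^ m ≤ Z := q1.trans p1'
    have hZup : Z ≤ 2 * (n : ℝ) ^ (53 / 100 : ℝ) := by linarith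
    have hZn : Z ≤ 2 * n := by
      have h3 : (n : ℝ) ^ (53 / 100 : ℝ) ≤ (n : ℝ) ^ (1 : ℝ) :=
        Real.rpow_le_rpow_of_exponent_le hn1' (by norm_num)
      rw [Real.rpow_one] at h3
      linarith
    refine h1.trans ?_
    rw [hB]
    have e1 : Z ^ (ε / 4) ≤ (2 * (n : ℝ)) ^ (ε / 4) :=
      Real.rpow_le_rpow hZ0.le hZn (by positivity)
    have e2 : (n : ℝ) / Z ≤ (n : ℝ) ^ E := by
      calc (n : ℝ) / Z ≤ n / (n : ℝ) ^ m :=
            div_le_div_of_nonneg_left hn0.le (by positivity) hZlow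
        _ = (n : ℝ) ^ (1 - m) := by rw [Real.rpow_sub hn0, Real.rpow_one]
        _ ≤ (n : ℝ) ^ E := Real.rpow_le_rpow_of_exponent_le hn1' (le_max_left _ _)
    have e3 : Z ^ 3 / n ≤ 8 * (n : ℝ) ^ E := by
      rw [div_le_iff₀ hn0]
      calc Z ^ 3 ≤ (2 * (n : ℝ) ^ (53 / 100 : ℝ)) ^ 3 := pow_le_pow_left₀ hZ0.le hZup 3
        _ = 8 * ((n : ℝ) ^ (59 / 100 : ℝ) * n) := by
            rw [mul_pow, ← Real.rpow_natCast ((n : ℝ) ^ (53 / 100 : ℝ)), ← Real.rpow_mul hn0.le]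
            nth_rewrite 3 [← Real.rpow_one (n : ℝ)]
            rw [← Real.rpow_add hn0]
            norm_num
        _ ≤ 8 * ((n : ℝ) ^ E * n) := by
            have : (n : ℝ) ^ (59 / 100 : ℝ) ≤ (n : ℝ) ^ E :=
              Real.rpow_le_rpow_of_exponent_le hn1' (le_max_right _ _)
            gcongr
        _ = 8 * (n : ℝ) ^ E * n := by ring
    calc C * Z ^ (ε / 4) * ((n : ℝ) / Z + Z ^ 3 / n)
        ≤ C * (2 * (n : ℝ)) ^ (ε / 4) * ((n : ℝ) ^ E + 8 * (n : ℝ) ^ E) := by gcongr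
      _ = _ := by ring
  have hcard : (T.card : ℝ) =
      ∑ i ∈ range (Nat.log 2 n + 2), (((T.filter (fun t => f t = i)).card : ℕ) : ℝ) := by
    rw [Finset.card_eq_sum_card_fiberwise hmaps]
    push_cast
    rfl
  have hlog : ((Nat.log 2 n : ℕ) : ℝ) ≤ (n : ℝ) ^ (ε / 4) / (ε / 4 * Real.log 2) := by
    have h1 := Real.natLog_le_logb n 2
    have h2 : Real.logb 2 n = Real.log n / Real.log 2 := rfl
    have h3 : Real.log n ≤ (n : ℝ) ^ (ε / 4) / (ε / 4) :=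
      Real.log_le_rpow_div hn0.le (by positivity)
    push_cast at h1
    rw [h2] at h1
    refine h1.trans ?_
    rw [← div_div]
    exact div_le_div_of_nonneg_right h3 hl2.le
  have h6 : 1 ≤ (n : ℝ) ^ (ε / 4) := Real.one_le_rpow hn1' (by positivity)
  rw [hcard]
  calc ∑ i ∈ range (Nat.log 2 n + 2), (((T.filter (fun t => f t = i)).card : ℕ) : ℝ)
      ≤ ∑ i ∈ range (Nat.log 2 n + 2), B := Finset.sum_le_sum hsc
    _ = ((Nat.log 2 n : ℕ) + 2 : ℝ) * B := by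
        rw [Finset.sum_const, nsmul_eq_mul, card_range]
        push_cast
        ring
    _ ≤ ((2 + 1 / (ε / 4 * Real.log 2)) * (n : ℝ) ^ (ε / 4)) * B := by
        apply mul_le_mul_of_nonneg_right _ hB0
        have e : (2 + 1 / (ε / 4 * Real.log 2)) * (n : ℝ) ^ (ε / 4) =
            2 * (n : ℝ) ^ (ε / 4) + (n : ℝ) ^ (ε / 4) / (ε / 4 * Real.log 2) := by ring
        rw [e]
        linarith
    _ = Ct * ((n : ℝ) ^ (ε / 4) * (n : ℝ) ^ (ε / 4) * (n : ℝ) ^ E) := by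
        rw [hB, hCt, Real.mul_rpow (by norm_num) hn0.le]; ring
    _ ≤ (n : ℝ) ^ (ε / 4) * ((n : ℝ) ^ (ε / 4) * (n : ℝ) ^ (ε / 4) * (n : ℝ) ^ E) := by gcongr
    _ = (n : ℝ) ^ (E + 3 * (ε / 4)) := by
        rw [← Real.rpow_add hn0, ← Real.rpow_add hn0, ← Real.rpow_add hn0]
        ring_nf
    _ ≤ (n : ℝ) ^ (E + ε) := Real.rpow_le_rpow_of_exponent_le hn1' (by linarith)

/-- The range `(53/100) log n ≤ log c ≤ K log n`. -/
theorem mid_range (K : ℝ) (hK : 1 ≤ K) : ∀ᶠ n : ℕ in atTop, ∀ T : Finset (ℕ × ℕ),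
    (∀ t ∈ T, IsT t ∧ rd t ≤ n ∧ 53 / 100 * Real.log n ≤ ht t ∧ ht t ≤ K * Real.log n) →
    (T.card : ℝ) ≤ (n : ℝ) ^ (3 / 5 : ℝ) := by
  classical
  obtain ⟨Y0, hY0⟩ := triples_card_le2 K hK
  have hlim2 : Tendsto (fun n : ℕ => (n : ℝ)) atTop atTop := tendsto_natCast_atTop_atTop
  filter_upwards [hlim2.eventually (eventually_ge_atTop Y0), eventually_ge_atTop 1]
    with n h1 hn1 T hT
  have hn0 : (0 : ℝ) < n := by exact_mod_cast hn1
  have hle := hY0 n h1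
  refine le_trans ?_ hle
  have hinj : Function.Injective (fun t : ℕ × ℕ => (t.1, t.2, t.1 + t.2)) := by
    rintro ⟨a, b⟩ ⟨a', b'⟩ h
    simp only [Prod.mk.injEq] at h
    rw [h.1, h.2.1]
  have hfin : {t : ℕ × ℕ × ℕ | Pabcv.AbcTriple t.1 t.2.1 t.2.2 ∧
      (Pabcv.rad (t.1 * t.2.1 * t.2.2) : ℝ) ≤ n ∧
      (n : ℝ) ^ (53 / 100 : ℝ) ≤ t.2.2 ∧ (t.2.2 : ℝ) ≤ (n : ℝ) ^ K}.Finite :=
    (Pabcv.finite_abc_le ((n : ℝ) ^ K)).subset (fun t ht' => ⟨ht'.1, ht'.2.2.2⟩)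
  have hsub : ((T.image (fun t : ℕ × ℕ => (t.1, t.2, t.1 + t.2)) : Finset (ℕ × ℕ × ℕ)) :
      Set (ℕ × ℕ × ℕ)) ⊆ {t : ℕ × ℕ × ℕ | Pabcv.AbcTriple t.1 t.2.1 t.2.2 ∧
      (Pabcv.rad (t.1 * t.2.1 * t.2.2) : ℝ) ≤ n ∧
      (n : ℝ) ^ (53 / 100 : ℝ) ≤ t.2.2 ∧ (t.2.2 : ℝ) ≤ (n : ℝ) ^ K} := by
    intro v hv
    rw [Finset.mem_coe, Finset.mem_image] at hv
    obtain ⟨t, ht', rfl⟩ := hv
    obtain ⟨hI, hrd, hh1, hh2⟩ := hT t ht'
    refine ⟨abc_of hI, ?_, ?_, ?_⟩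
    · have : Pabcv.rad (t.1 * t.2 * (t.1 + t.2)) = rd t := rfl
      simp only
      rw [this]
      exact_mod_cast hrd
    · simp only
      rw [← exp_ht hI, Real.rpow_def_of_pos hn0, Real.exp_le_exp]
      linarith
    · simp only
      rw [← exp_ht hI, Real.rpow_def_of_pos hn0, Real.exp_le_exp]
      linarith
  have h2 := Set.ncard_le_ncard hsub hfin
  rw [Set.ncard_coe_finset, Finset.card_image_of_injective _ hinj] at h2
  exact_mod_cast h2

/-- All heights, radical between `n / 2` and `n`. -/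
theorem all_range (m : ℝ) (ε : ℝ) (hε : 0 < ε) : ∀ᶠ n : ℕ in atTop, ∀ T : Finset (ℕ × ℕ),
    (∀ t ∈ T, IsT t ∧ rd t ≤ n ∧ n ≤ 2 * rd t ∧ m * Real.log n ≤ ht t) →
    (T.card : ℝ) ≤ (n : ℝ) ^ (max (1 - m) (3 / 5) + ε) := by
  classical
  obtain ⟨K, hK, h1⟩ := Pabc14.tall_all (1 / 10) (by norm_num)
  have hlim2 : Tendsto (fun n : ℕ => (n : ℝ)) atTop atTop := tendsto_natCast_atTop_atTop
  filter_upwards [h1, mid_range K hK, low_range m (ε / 2) (by positivity),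
    ((tendsto_rpow_atTop (show 0 < ε / 2 by positivity)).comp hlim2).eventually_ge_atTop 3,
    eventually_ge_atTop 1] with n g1 g2 g3 g4 hn1 T hT
  simp only [Function.comp] at g4
  have hn0 : (0 : ℝ) < n := by exact_mod_cast hn1
  have hn1' : (1 : ℝ) ≤ n := by exact_mod_cast hn1
  have c1 := g1 (T.filter (fun t => K * Real.log n ≤ ht t)) (by
    intro t ht'
    rw [Finset.mem_filter] at ht'
    obtain ⟨hI, hrd, -, hh⟩ := hT t ht'.1
    exact ⟨hI, hrd, ht'.2⟩)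
  have c2 := g2 ((T.filter (fun t => ¬ K * Real.log n ≤ ht t)).filter
      (fun t => 53 / 100 * Real.log n ≤ ht t)) (by
    intro t ht'
    rw [Finset.mem_filter, Finset.mem_filter, not_le] at ht'
    obtain ⟨hI, hrd, -, hh⟩ := hT t ht'.1.1
    exact ⟨hI, hrd, ht'.2, ht'.1.2.le⟩)
  have c3 := g3 ((T.filter (fun t => ¬ K * Real.log n ≤ ht t)).filter
      (fun t => ¬ 53 / 100 * Real.log n ≤ ht t)) (by
    intro t ht'
    rw [Finset.mem_filter, Finset.mem_filter, not_le, not_le] at ht'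
    obtain ⟨hI, hrd, hr2, hh⟩ := hT t ht'.1.1
    exact ⟨hI, hrd, hr2, hh, ht'.2.le⟩)
  have c4 : (T.card : ℝ) = (T.filter (fun t => K * Real.log n ≤ ht t)).card +
      (((T.filter (fun t => ¬ K * Real.log n ≤ ht t)).filter
        (fun t => 53 / 100 * Real.log n ≤ ht t)).card +
      ((T.filter (fun t => ¬ K * Real.log n ≤ ht t)).filter
        (fun t => ¬ 53 / 100 * Real.log n ≤ ht t)).card) := by
    have e1 := Finset.card_filter_add_card_filter_not (s := T) (fun t => K * Real.log n ≤ ht t)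
    have e2 := Finset.card_filter_add_card_filter_not
      (s := T.filter (fun t => ¬ K * Real.log n ≤ ht t)) (fun t => 53 / 100 * Real.log n ≤ ht t)
    have e3 : T.card = (T.filter (fun t => K * Real.log n ≤ ht t)).card +
      (((T.filter (fun t => ¬ K * Real.log n ≤ ht t)).filter
        (fun t => 53 / 100 * Real.log n ≤ ht t)).card +
      ((T.filter (fun t => ¬ K * Real.log n ≤ ht t)).filter
        (fun t => ¬ 53 / 100 * Real.log n ≤ ht t)).card) := by omega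
    exact_mod_cast e3
  set E : ℝ := max (1 - m) (3 / 5) with hE
  have hE1 : 3 / 5 ≤ E := le_max_right _ _
  have e1 : (n : ℝ) ^ (1 / 3 + 1 / 10 : ℝ) ≤ (n : ℝ) ^ (E + ε / 2) :=
    Real.rpow_le_rpow_of_exponent_le hn1' (by linarith)
  have e2 : (n : ℝ) ^ (3 / 5 : ℝ) ≤ (n : ℝ) ^ (E + ε / 2) :=
    Real.rpow_le_rpow_of_exponent_le hn1' (by linarith)
  have e3 : (n : ℝ) ^ (max (1 - m) (59 / 100) + ε / 2) ≤ (n : ℝ) ^ (E + ε / 2) := by
    apply Real.rpow_le_rpow_of_exponent_le hn1'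
    have : max (1 - m) (59 / 100) ≤ E := max_le_max le_rfl (by norm_num)
    linarith
  have e4 : (n : ℝ) ^ (E + ε) = (n : ℝ) ^ (ε / 2) * (n : ℝ) ^ (E + ε / 2) := by
    rw [← Real.rpow_add hn0]
    congr 1
    ring
  have e5 : 0 < (n : ℝ) ^ (E + ε / 2) := by positivity
  rw [e4]
  nlinarith

/-- **All triples of radical at most `n` with `c ≥ rad ^ M`**, `M > 1/3`. -/
theorem viol_all (M : ℝ) (hM : 1 / 3 < M) (ε : ℝ) (hε : 0 < ε) :
    ∀ᶠ n : ℕ in atTop, ∀ T : Finset (ℕ × ℕ),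
      (∀ t ∈ T, IsT t ∧ rd t ≤ n ∧ M * Real.log (rd t) ≤ ht t) →
      (T.card : ℝ) ≤ (n : ℝ) ^ (max (1 - M) (3 / 5) + ε) := by
  set m : ℝ := max (M - ε / 4) (1 / 3) with hm
  have hm1 : M - ε / 4 ≤ m := le_max_left _ _
  have hm2 : m < M := max_lt (by linarith) hM
  have hm0 : 0 < m := lt_of_lt_of_le (by norm_num) (le_max_right _ _)
  have hmax : max (1 - m) (3 / 5) ≤ max (1 - M) (3 / 5) + ε / 4 := by
    apply max_le
    · have := le_max_left (1 - M) (3 / 5 : ℝ)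
      linarith
    · have := le_max_right (1 - M) (3 / 5 : ℝ)
      linarith
  have hα : 0 < max (1 - m) (3 / 5) + ε / 4 := by
    have := le_max_right (1 - m) (3 / 5 : ℝ)
    linarith
  have key := dyadic hα (β := 1) one_pos all_le
    (fun _ t => M * Real.log (rd t) ≤ ht t)
    (fun k t => k ≤ 2 * rd t ∧ m * Real.log k ≤ ht t) (by
      filter_upwards [all_range m (ε / 4) (by positivity)] with n h T hT
      exact h T (fun t ht' => ⟨(hT t ht').1, (hT t ht').2.1, (hT t ht').2.2.1,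
        (hT t ht').2.2.2⟩)) (by
      have hlim : Tendsto (fun n : ℕ => Real.log (n : ℝ)) atTop atTop :=
        Real.tendsto_log_atTop.comp tendsto_natCast_atTop_atTop
      filter_upwards [hlim.eventually (eventually_ge_atTop (M * Real.log 2 / (M - m))),
        eventually_ge_atTop 1] with k hk hk1 n _ _ t hI _ hk2 hP
      refine ⟨hk2, ?_⟩
      have hk0 : (0 : ℝ) < k := by exact_mod_cast hk1
      have hr0 : (0 : ℝ) < rd t := by exact_mod_cast AbcL.rd_pos t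
      have h2 : Real.log k ≤ Real.log 2 + Real.log (rd t) := by
        rw [← Real.log_mul (by norm_num) hr0.ne']
        apply Real.log_le_log hk0
        exact_mod_cast hk2
      rw [div_le_iff₀ (by linarith)] at hk
      have h3 : M * (Real.log k - Real.log 2) ≤ M * Real.log (rd t) :=
        mul_le_mul_of_nonneg_left (by linarith) (by linarith)
      linarith) (ε / 4) (by positivity)
  filter_upwards [key, eventually_ge_atTop 1] with n h hn1 T hT
  have hn1' : (1 : ℝ) ≤ n := by exact_mod_cast hn1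
  refine (h T hT).trans ?_
  exact Real.rpow_le_rpow_of_exponent_le hn1' (by linarith)

end Pool.Agent.Lib.AbcX
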