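import Pool.Agent.Lib.AbcX.Core2
import Pool.Agent.Lib.Pabcv.FinalA

/-!
# The abc-triples with `Y ^ (53/100) ≤ c ≤ Y ^ K`
-/

set_option autoImplicit false

namespace Pool.Agent.Lib.AbcX

open Finset Pool.Agent.Lib.Pabcv

theorem mainSet2_card_le (K : ℝ) (hK : 1 ≤ K) : ∃ Y0 : ℝ, ∀ Y : ℝ, Y0 ≤ Y →
    ((mainSet2 K Y).card : ℝ) ≤ Y ^ (3 / 5 - 1 / 1000 : ℝ) := by
  classical
  obtain ⟨C, Y1, hC1, hC⟩ := Qcell2_card K hK
  set Ct : ℝ := (10002 : ℝ) ^ 3 * C with hCt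
  have hCt0 : 0 < Ct := by positivity
  refine ⟨max (max 2 Y1) (Ct ^ (10000 / 3 : ℝ)), ?_⟩
  intro Y hY
  have hY2 : 2 ≤ Y := (le_max_left _ _).trans ((le_max_left _ _).trans hY)
  have hYY1 : Y1 ≤ Y := (le_max_right _ _).trans ((le_max_left _ _).trans hY)
  have hY1 : 1 < Y := by linarith
  have hY0 : 0 < Y := by linarith
  have hlogY : 0 < Real.log Y := Real.log_pos hY1
  have hYC : Ct ≤ Y ^ (3 / 10000 : ℝ) := by
    have h1 : Ct ^ (10000 / 3 : ℝ) ≤ Y := (le_max_right _ _).trans hY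
    have h2 : Ct = (Ct ^ (10000 / 3 : ℝ)) ^ (3 / 10000 : ℝ) := by
      rw [← Real.rpow_mul hCt0.le]
      norm_num
    rw [h2]
    exact Real.rpow_le_rpow (by positivity) h1 (by norm_num)
  obtain ⟨N, hN⟩ : ∃ N : ℕ, N = 10002 := ⟨_, rfl⟩
  set T : Finset (ℕ × ℕ × ℕ) := range N ×ˢ (range N ×ˢ range N) with hT
  set f : ℕ × ℕ × ℕ → ℕ × ℕ × ℕ := fun t =>
    (cell (1 / 10000) Y (rad t.1), cell (1 / 10000) Y (rad t.2.1),
      cell (1 / 10000) Y (rad t.2.2)) with hf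
  have hη0 : (0 : ℝ) < 1 / 10000 := by norm_num
  have hcl : ∀ r : ℕ, 1 ≤ r → (r : ℝ) ≤ Y → cell (1 / 10000) Y r < N := by
    intro r hr hrY
    have h1 := cell_le hη0 hY1 hr
    have h2 : Real.log r / Real.log Y ≤ 1 := by
      rw [div_le_one hlogY]
      exact Real.log_le_log (by exact_mod_cast hr) hrY
    have h3 : (cell (1 / 10000) Y r : ℝ) ≤ 10001 := by linarith
    have h4 : cell (1 / 10000) Y r ≤ 10001 := by exact_mod_cast h3
    omega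
  have hmaps : ∀ t ∈ mainSet2 K Y, f t ∈ T := by
    rintro ⟨x, y, n⟩ ht
    rw [mainSet2] at ht
    have hr := (mem_filter.1 ht).2.2.2.2.2.2.1
    simp only at hr
    have h3 := three_le_prod (rad_pos x) (rad_pos y) (rad_pos n)
    simp only [hT, hf, mem_product, mem_range]
    refine ⟨hcl _ (rad_pos _) (le_trans (by exact_mod_cast h3.1) hr),
      hcl _ (rad_pos _) (le_trans (by exact_mod_cast h3.2.1) hr),
      hcl _ (rad_pos _) (le_trans (by exact_mod_cast h3.2.2) hr)⟩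
  have h1 : (mainSet2 K Y).card = ∑ c ∈ T, ((mainSet2 K Y).filter (fun t => f t = c)).card :=
    Finset.card_eq_sum_card_fiberwise hmaps
  have h2 : ((mainSet2 K Y).card : ℝ) ≤ ∑ c ∈ T, C * Y ^ (5987 / 10000 : ℝ) := by
    rw [h1]
    push_cast
    refine Finset.sum_le_sum fun c _ => ?_
    have h3 := hC Y hYY1 c
    rw [Qcell2] at h3
    convert h3 using 3
  have h3 : (T.card : ℝ) = (10002 : ℝ) ^ 3 := by
    rw [hT, Finset.card_product, Finset.card_product, Finset.card_range, Nat.cast_mul,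
      Nat.cast_mul, hN, Nat.cast_ofNat]
    ring
  calc ((mainSet2 K Y).card : ℝ) ≤ ∑ c ∈ T, C * Y ^ (5987 / 10000 : ℝ) := h2
    _ = Ct * Y ^ (5987 / 10000 : ℝ) := by
        rw [Finset.sum_const, nsmul_eq_mul, h3, hCt, mul_assoc]
    _ ≤ Y ^ (3 / 10000 : ℝ) * Y ^ (5987 / 10000 : ℝ) := by gcongr
    _ = Y ^ (3 / 5 - 1 / 1000 : ℝ) := by
        rw [← Real.rpow_add hY0]
        norm_num

open Classical in
theorem mem_mainSet2_of {K Y : ℝ} {x y n : ℕ}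
    (h : (x, y, n) ∈ (Finset.Icc 1 ⌊Y ^ K⌋₊ ×ˢ (Finset.Icc 1 ⌊Y ^ K⌋₊ ×ˢ Finset.Icc 1 ⌊Y ^ K⌋₊)))
    (h2 : Rel x y n ∧ x.Coprime n ∧ y.Coprime n ∧
      rad x ≤ rad y ∧ rad x ≤ rad n ∧
      ((rad x * rad y * rad n : ℕ) : ℝ) ≤ Y ∧ Y ^ (529 / 1000 : ℝ) ≤ n) :
    (x, y, n) ∈ mainSet2 K Y :=
  Finset.mem_filter.2 ⟨h, h2⟩

/-- Two orders of the first two members. -/
theorem good_mem2 {K Y : ℝ} {x y n : ℕ} (hx : 0 < x) (hy : 0 < y) (hn : 0 < n)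
    (hx' : (x : ℝ) ≤ Y ^ K) (hy' : (y : ℝ) ≤ Y ^ K) (hn' : (n : ℝ) ≤ Y ^ K)
    (hrel : Rel x y n) (h1 : x.Coprime n) (h2 : y.Coprime n)
    (hmin : rad x ≤ rad n ∨ rad y ≤ rad n) (hrad : ((rad x * rad y * rad n : ℕ) : ℝ) ≤ Y)
    (hlarge : Y ^ (529 / 1000 : ℝ) ≤ n) :
    (x, y, n) ∈ mainSet2 K Y ∨ (y, x, n) ∈ mainSet2 K Y := by
  have hx2 : x ∈ Finset.Icc 1 ⌊Y ^ K⌋₊ := Finset.mem_Icc.2 ⟨hx, Nat.le_floor hx'⟩
  have hy2 : y ∈ Finset.Icc 1 ⌊Y ^ K⌋₊ := Finset.mem_Icc.2 ⟨hy, Nat.le_floor hy'⟩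
  have hn2 : n ∈ Finset.Icc 1 ⌊Y ^ K⌋₊ := Finset.mem_Icc.2 ⟨hn, Nat.le_floor hn'⟩
  have hrel2 : Rel y x n := by
    unfold Pabcv.Rel at hrel ⊢
    omega
  have hrad2 : ((rad y * rad x * rad n : ℕ) : ℝ) ≤ Y := by
    rw [mul_comm (rad y)]; exact hrad
  rcases Nat.le_total (rad x) (rad y) with h | h
  · left
    refine mem_mainSet2_of ?_ ⟨hrel, h1, h2, h, ?_, hrad, hlarge⟩
    · simp only [Finset.mem_product]
      exact ⟨hx2, hy2, hn2⟩
    · rcases hmin with h3 | h3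
      · exact h3
      · exact h.trans h3
  · right
    refine mem_mainSet2_of ?_ ⟨hrel2, h2, h1, h, ?_, hrad2, hlarge⟩
    · simp only [Finset.mem_product]
      exact ⟨hy2, hx2, hn2⟩
    · rcases hmin with h3 | h3
      · exact h.trans h3
      · exact h3

open Classical in
theorem triples_card_le2 (K : ℝ) (hK : 1 ≤ K) : ∃ Y0 : ℝ, ∀ Y : ℝ, Y0 ≤ Y →
    ({t : ℕ × ℕ × ℕ | AbcTriple t.1 t.2.1 t.2.2 ∧ (rad (t.1 * t.2.1 * t.2.2) : ℝ) ≤ Y ∧
      Y ^ (53 / 100 : ℝ) ≤ t.2.2 ∧ (t.2.2 : ℝ) ≤ Y ^ K}.ncard : ℝ) ≤ Y ^ (3 / 5 : ℝ) := by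
  obtain ⟨Y0, hY0⟩ := mainSet2_card_le K hK
  obtain ⟨Y1, hY1⟩ := Filter.eventually_atTop.1
    ((tendsto_rpow_atTop (y := (1 / 1000 : ℝ)) (by norm_num)).eventually_ge_atTop 2)
  obtain ⟨Y2, hY2⟩ := Filter.eventually_atTop.1
    ((tendsto_rpow_atTop (y := (1 / 1000 : ℝ)) (by norm_num)).eventually_ge_atTop 6)
  refine ⟨max (max Y0 Y1) (max Y2 1), fun Y hY => ?_⟩
  have hYa : Y0 ≤ Y := (le_max_left _ _).trans ((le_max_left _ _).trans hY)
  have hYb : Y1 ≤ Y := (le_max_right _ _).trans ((le_max_left _ _).trans hY)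
  have hYc : Y2 ≤ Y := (le_max_left _ _).trans ((le_max_right _ _).trans hY)
  have hYd : 1 ≤ Y := (le_max_right _ _).trans ((le_max_right _ _).trans hY)
  have hpos : 0 < Y := by linarith
  have hA := hY0 Y hYa
  have hB := hY1 Y hYb
  have hC := hY2 Y hYc
  have hlarge : Y ^ (529 / 1000 : ℝ) * 2 ≤ Y ^ (53 / 100 : ℝ) := by
    have : Y ^ (53 / 100 : ℝ) = Y ^ (529 / 1000 : ℝ) * Y ^ (1 / 1000 : ℝ) := by
      rw [← Real.rpow_add hpos]; norm_num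
    rw [this]
    exact mul_le_mul_of_nonneg_left hB (Real.rpow_nonneg hpos.le _)
  set S := mainSet2 K Y with hS
  set T : Finset (ℕ × ℕ × ℕ) :=
    (S.image (fun t => (t.1, t.2.1, t.2.2)) ∪ S.image (fun t => (t.2.1, t.1, t.2.2))) ∪
    ((S.image (fun t => (t.2.2, t.1, t.2.1)) ∪ S.image (fun t => (t.2.2, t.2.1, t.1))) ∪
    (S.image (fun t => (t.1, t.2.2, t.2.1)) ∪ S.image (fun t => (t.2.1, t.2.2, t.1)))) with hT
  have hTcard : T.card ≤ 6 * S.card := by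
    have h6 := Finset.card_union_le
      (S.image (fun t : ℕ × ℕ × ℕ => (t.1, t.2.1, t.2.2)) ∪
        S.image (fun t : ℕ × ℕ × ℕ => (t.2.1, t.1, t.2.2)))
      ((S.image (fun t : ℕ × ℕ × ℕ => (t.2.2, t.1, t.2.1)) ∪
        S.image (fun t : ℕ × ℕ × ℕ => (t.2.2, t.2.1, t.1))) ∪
      (S.image (fun t : ℕ × ℕ × ℕ => (t.1, t.2.2, t.2.1)) ∪
        S.image (fun t : ℕ × ℕ × ℕ => (t.2.1, t.2.2, t.1))))
    have h7 := Finset.card_union_le
      (S.image (fun t : ℕ × ℕ × ℕ => (t.1, t.2.1, t.2.2)))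
      (S.image (fun t : ℕ × ℕ × ℕ => (t.2.1, t.1, t.2.2)))
    have h8 := Finset.card_union_le
      (S.image (fun t : ℕ × ℕ × ℕ => (t.2.2, t.1, t.2.1)) ∪
        S.image (fun t : ℕ × ℕ × ℕ => (t.2.2, t.2.1, t.1)))
      (S.image (fun t : ℕ × ℕ × ℕ => (t.1, t.2.2, t.2.1)) ∪
        S.image (fun t : ℕ × ℕ × ℕ => (t.2.1, t.2.2, t.1)))
    have h9 := Finset.card_union_le
      (S.image (fun t : ℕ × ℕ × ℕ => (t.2.2, t.1, t.2.1)))
      (S.image (fun t : ℕ × ℕ × ℕ => (t.2.2, t.2.1, t.1)))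
    have h10 := Finset.card_union_le
      (S.image (fun t : ℕ × ℕ × ℕ => (t.1, t.2.2, t.2.1)))
      (S.image (fun t : ℕ × ℕ × ℕ => (t.2.1, t.2.2, t.1)))
    have i1 := Finset.card_image_le (s := S) (f := fun t : ℕ × ℕ × ℕ => (t.1, t.2.1, t.2.2))
    have i2 := Finset.card_image_le (s := S) (f := fun t : ℕ × ℕ × ℕ => (t.2.1, t.1, t.2.2))
    have i3 := Finset.card_image_le (s := S) (f := fun t : ℕ × ℕ × ℕ => (t.2.2, t.1, t.2.1))
    have i4 := Finset.card_image_le (s := S) (f := fun t : ℕ × ℕ × ℕ => (t.2.2, t.2.1, t.1))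
    have i5 := Finset.card_image_le (s := S) (f := fun t : ℕ × ℕ × ℕ => (t.1, t.2.2, t.2.1))
    have i6 := Finset.card_image_le (s := S) (f := fun t : ℕ × ℕ × ℕ => (t.2.1, t.2.2, t.1))
    rw [hT]
    omega
  have hsub : {t : ℕ × ℕ × ℕ | AbcTriple t.1 t.2.1 t.2.2 ∧
      (rad (t.1 * t.2.1 * t.2.2) : ℝ) ≤ Y ∧
      Y ^ (53 / 100 : ℝ) ≤ t.2.2 ∧ (t.2.2 : ℝ) ≤ Y ^ K} ⊆ (T : Set (ℕ × ℕ × ℕ)) := by
    rintro ⟨a, b, c⟩ ⟨⟨ha, hb, hc, hab, hac, hbc, habc⟩, hrad, hc1, hc2⟩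
    simp only at ha hb hc hab hac hbc habc hrad hc1 hc2
    have hradm : rad (a * b * c) = rad a * rad b * rad c := by
      rw [rad_mul_coprime (Nat.Coprime.mul_left hac hbc), rad_mul_coprime hab]
    rw [hradm] at hrad
    have hac' : (a : ℝ) ≤ Y ^ K := by
      have : (a : ℝ) ≤ c := by exact_mod_cast (by omega : a ≤ c)
      exact this.trans hc2
    have hbc' : (b : ℝ) ≤ Y ^ K := by
      have : (b : ℝ) ≤ c := by exact_mod_cast (by omega : b ≤ c)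
      exact this.trans hc2
    have hclarge : Y ^ (529 / 1000 : ℝ) ≤ c := by
      have h0 : 0 ≤ Y ^ (529 / 1000 : ℝ) := Real.rpow_nonneg hpos.le _
      linarith
    have halarge : b ≤ a → Y ^ (529 / 1000 : ℝ) ≤ a := by
      intro h
      have h1 : (c : ℝ) ≤ 2 * a := by exact_mod_cast (by omega : c ≤ 2 * a)
      linarith
    have hblarge : a ≤ b → Y ^ (529 / 1000 : ℝ) ≤ b := by
      intro h
      have h1 : (c : ℝ) ≤ 2 * b := by exact_mod_cast (by omega : c ≤ 2 * b)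
      linarith
    rw [Finset.mem_coe, hT]
    simp only [Finset.mem_union, Finset.mem_image, Prod.exists, Prod.mk.injEq]
    rcases Nat.le_total b a with hle | hle
    · rcases Nat.le_total (rad a) (rad c) with h | h
      · rcases good_mem2 (K := K) (Y := Y) ha hb hc hac' hbc' hc2 (Or.inl habc) hac hbc (Or.inl h)
          hrad hclarge with h1 | h1
        · exact Or.inl (Or.inl ⟨a, b, c, h1, rfl, rfl, rfl⟩)
        · exact Or.inl (Or.inr ⟨b, a, c, h1, rfl, rfl, rfl⟩)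
      · rcases good_mem2 (K := K) (Y := Y) (x := b) (y := c) (n := a) hb hc ha hbc' hc2 hac'
          (Or.inr (Or.inl (by omega))) hab.symm hac.symm (Or.inr h)
          (by
            have e : rad b * rad c * rad a = rad a * rad b * rad c := by ring
            rw [e]; exact hrad) (halarge hle) with h1 | h1
        · exact Or.inr (Or.inl (Or.inl ⟨b, c, a, h1, rfl, rfl, rfl⟩))
        · exact Or.inr (Or.inl (Or.inr ⟨c, b, a, h1, rfl, rfl, rfl⟩))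
    · rcases Nat.le_total (rad b) (rad c) with h | h
      · rcases good_mem2 (K := K) (Y := Y) ha hb hc hac' hbc' hc2 (Or.inl habc) hac hbc (Or.inr h)
          hrad hclarge with h1 | h1
        · exact Or.inl (Or.inl ⟨a, b, c, h1, rfl, rfl, rfl⟩)
        · exact Or.inl (Or.inr ⟨b, a, c, h1, rfl, rfl, rfl⟩)
      · rcases good_mem2 (K := K) (Y := Y) (x := a) (y := c) (n := b) ha hc hb hac' hc2 hbc'
          (Or.inr (Or.inl (by omega))) hab hbc.symm (Or.inr h)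
          (by
            have e : rad a * rad c * rad b = rad a * rad b * rad c := by ring
            rw [e]; exact hrad) (hblarge hle) with h1 | h1
        · exact Or.inr (Or.inr (Or.inl ⟨a, c, b, h1, rfl, rfl, rfl⟩))
        · exact Or.inr (Or.inr (Or.inr ⟨c, a, b, h1, rfl, rfl, rfl⟩))
  have hncard := Set.ncard_le_ncard hsub (Finset.finite_toSet T)
  rw [Set.ncard_coe_finset] at hncard
  have h6 : (6 : ℝ) * Y ^ (3 / 5 - 1 / 1000 : ℝ) ≤ Y ^ (3 / 5 : ℝ) := by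
    have : Y ^ (3 / 5 : ℝ) = Y ^ (1 / 1000 : ℝ) * Y ^ (3 / 5 - 1 / 1000 : ℝ) := by
      rw [← Real.rpow_add hpos]; norm_num
    rw [this]
    exact mul_le_mul_of_nonneg_right hC (Real.rpow_nonneg hpos.le _)
  calc (({t : ℕ × ℕ × ℕ | AbcTriple t.1 t.2.1 t.2.2 ∧
      (rad (t.1 * t.2.1 * t.2.2) : ℝ) ≤ Y ∧
      Y ^ (53 / 100 : ℝ) ≤ t.2.2 ∧ (t.2.2 : ℝ) ≤ Y ^ K}.ncard : ℕ) : ℝ) ≤ (T.card : ℝ) := by
        exact_mod_cast hncard
    _ ≤ 6 * (S.card : ℝ) := by exact_mod_cast hTcard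
    _ ≤ 6 * Y ^ (3 / 5 - 1 / 1000 : ℝ) := by linarith
    _ ≤ _ := h6

end Pool.Agent.Lib.AbcX
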