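import Pool.Agent.Lib.AbcX.EE

/-!
# Linear inequalities for the exponents
-/

set_option autoImplicit false

namespace Pool.Agent.Lib.AbcX

/-- The exponent of the pairs is at most `B` if this is so for the thirty-six linear pieces. -/
theorem eE_pair_le {σ U V A B : ℝ}
    (h : ∀ p q p' q' : ℝ,
      ((p = 1 ∧ q = 0) ∨ (p = 1168 / 1000 ∧ q = 84 / 1000) ∨ (p = 146 / 100 ∧ q = 2884 / 10000) ∨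
        (p = 17045 / 10000 ∧ q = 5329 / 10000) ∨ (p = 1911 / 1000 ∧ q = 822 / 1000) ∨
        (p = 2 ∧ q = 1)) →
      ((p' = 1 ∧ q' = 0) ∨ (p' = 1168 / 1000 ∧ q' = 84 / 1000) ∨
        (p' = 146 / 100 ∧ q' = 2884 / 10000) ∨
        (p' = 17045 / 10000 ∧ q' = 5329 / 10000) ∨ (p' = 1911 / 1000 ∧ q' = 822 / 1000) ∨
        (p' = 2 ∧ q' = 1)) →
      A + ((p * U - q * σ) + (p' * V - q' * σ)) / 2 ≤ B) :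
    A + (eE σ U + eE σ V) / 2 ≤ B := by
  have h1 : ∃ p q : ℝ, ((p = 1 ∧ q = 0) ∨ (p = 1168 / 1000 ∧ q = 84 / 1000) ∨
      (p = 146 / 100 ∧ q = 2884 / 10000) ∨
        (p = 17045 / 10000 ∧ q = 5329 / 10000) ∨ (p = 1911 / 1000 ∧ q = 822 / 1000) ∨
        (p = 2 ∧ q = 1)) ∧ eE σ U = p * U - q * σ := by
    rcases eE_cases σ U with g | g | g | g | g | g
    · exact ⟨1, 0, by simp, by rw [g]; ring⟩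
    · exact ⟨1168 / 1000, 84 / 1000, by simp, g⟩
    · exact ⟨146 / 100, 2884 / 10000, by simp, g⟩
    · exact ⟨17045 / 10000, 5329 / 10000, by simp, g⟩
    · exact ⟨1911 / 1000, 822 / 1000, by simp, g⟩
    · exact ⟨2, 1, by simp, by rw [g]; ring⟩
  have h2 : ∃ p q : ℝ, ((p = 1 ∧ q = 0) ∨ (p = 1168 / 1000 ∧ q = 84 / 1000) ∨
      (p = 146 / 100 ∧ q = 2884 / 10000) ∨
        (p = 17045 / 10000 ∧ q = 5329 / 10000) ∨ (p = 1911 / 1000 ∧ q = 822 / 1000) ∨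
        (p = 2 ∧ q = 1)) ∧ eE σ V = p * V - q * σ := by
    rcases eE_cases σ V with g | g | g | g | g | g
    · exact ⟨1, 0, by simp, by rw [g]; ring⟩
    · exact ⟨1168 / 1000, 84 / 1000, by simp, g⟩
    · exact ⟨146 / 100, 2884 / 10000, by simp, g⟩
    · exact ⟨17045 / 10000, 5329 / 10000, by simp, g⟩
    · exact ⟨1911 / 1000, 822 / 1000, by simp, g⟩
    · exact ⟨2, 1, by simp, by rw [g]; ring⟩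
  obtain ⟨p, q, hp, e1⟩ := h1
  obtain ⟨p', q', hp', e2⟩ := h2
  rw [e1, e2]
  exact h p q p' q' hp hp'

/-- The threshold for the radical of the power. -/
noncomputable def r0 (u1 u2 u3 : ℝ) : ℝ := u3 + max u2 (u1 + u2 / 2) - 5972 / 10000

/-- Divisors with exponents at least three. -/
theorem num2 {u1 u2 u3 ρ : ℝ} (h12 : u1 ≤ u2) (h13 : u1 ≤ u3) (hs : u1 + u2 + u3 ≤ 10003 / 10000)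
    (h12' : 5985 / 10000 ≤ u1 + u2) (h13' : 5985 / 10000 ≤ u1 + u3)
    (h23' : 5985 / 10000 ≤ u2 + u3) (hρ1 : 7 / 100 ≤ ρ)
    (hρ2 : ρ ≤ max (r0 u1 u2 u3) (2 * (7 / 100)) + 1 / 10000) :
    ρ + (eE (3 * (ρ - 1 / 10000)) (u1 + 1 / 100000) +
      eE (3 * (ρ - 1 / 10000)) (u2 + 1 / 100000)) / 2 ≤ 5983 / 10000 := by
  apply eE_pair_le
  rcases le_total (r0 u1 u2 u3) (2 * (7 / 100)) with hm | hm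
  · rw [max_eq_right hm] at hρ2
    rintro p q p' q' (⟨rfl, rfl⟩ | ⟨rfl, rfl⟩ | ⟨rfl, rfl⟩ | ⟨rfl, rfl⟩ | ⟨rfl, rfl⟩ | ⟨rfl, rfl⟩)
      (⟨rfl, rfl⟩ | ⟨rfl, rfl⟩ | ⟨rfl, rfl⟩ | ⟨rfl, rfl⟩ | ⟨rfl, rfl⟩ | ⟨rfl, rfl⟩) <;> linarith
  · rw [max_eq_left hm] at hρ2
    unfold r0 at hρ2
    rcases le_total u2 (u1 + u2 / 2) with hc | hc
    · rw [max_eq_right hc] at hρ2
      rintro p q p' q' (⟨rfl, rfl⟩ | ⟨rfl, rfl⟩ | ⟨rfl, rfl⟩ | ⟨rfl, rfl⟩ | ⟨rfl, rfl⟩ | ⟨rfl, rfl⟩)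
        (⟨rfl, rfl⟩ | ⟨rfl, rfl⟩ | ⟨rfl, rfl⟩ | ⟨rfl, rfl⟩ | ⟨rfl, rfl⟩ | ⟨rfl, rfl⟩) <;> linarith
    · rw [max_eq_left hc] at hρ2
      rintro p q p' q' (⟨rfl, rfl⟩ | ⟨rfl, rfl⟩ | ⟨rfl, rfl⟩ | ⟨rfl, rfl⟩ | ⟨rfl, rfl⟩ | ⟨rfl, rfl⟩)
        (⟨rfl, rfl⟩ | ⟨rfl, rfl⟩ | ⟨rfl, rfl⟩ | ⟨rfl, rfl⟩ | ⟨rfl, rfl⟩ | ⟨rfl, rfl⟩) <;> linarith

/-- Divisors with exponents two. -/
theorem num3 {u1 u2 u3 ρ : ℝ} (h12 : u1 ≤ u2) (h13 : u1 ≤ u3) (hs : u1 + u2 + u3 ≤ 10003 / 10000)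
    (h12' : 5985 / 10000 ≤ u1 + u2) (h13' : 5985 / 10000 ≤ u1 + u3)
    (h23' : 5985 / 10000 ≤ u2 + u3) (hρ1 : r0 u1 u2 u3 - 7 / 100 ≤ ρ)
    (hρ2 : ρ ≤ r0 u1 u2 u3 + 1 / 10000) :
    ρ + (eE (2 * (ρ - 1 / 10000)) (u1 + 1 / 100000) +
      eE (2 * (ρ - 1 / 10000)) (u2 + 1 / 100000)) / 2 ≤ 5983 / 10000 := by
  apply eE_pair_le
  unfold r0 at hρ1 hρ2
  rcases le_total u2 (u1 + u2 / 2) with hc | hc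
  · rw [max_eq_right hc] at hρ1 hρ2
    rintro p q p' q' (⟨rfl, rfl⟩ | ⟨rfl, rfl⟩ | ⟨rfl, rfl⟩ | ⟨rfl, rfl⟩ | ⟨rfl, rfl⟩ | ⟨rfl, rfl⟩)
      (⟨rfl, rfl⟩ | ⟨rfl, rfl⟩ | ⟨rfl, rfl⟩ | ⟨rfl, rfl⟩ | ⟨rfl, rfl⟩ | ⟨rfl, rfl⟩) <;> linarith
  · rw [max_eq_left hc] at hρ1 hρ2
    rintro p q p' q' (⟨rfl, rfl⟩ | ⟨rfl, rfl⟩ | ⟨rfl, rfl⟩ | ⟨rfl, rfl⟩ | ⟨rfl, rfl⟩ | ⟨rfl, rfl⟩)
      (⟨rfl, rfl⟩ | ⟨rfl, rfl⟩ | ⟨rfl, rfl⟩ | ⟨rfl, rfl⟩ | ⟨rfl, rfl⟩ | ⟨rfl, rfl⟩) <;> linarith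

/-- The whole part with exponents at least two. -/
theorem num4 {u1 u2 u3 ρ σ : ℝ} (h12 : u1 ≤ u2) (h13 : u1 ≤ u3)
    (hs : u1 + u2 + u3 ≤ 10003 / 10000)
    (h12' : 5985 / 10000 ≤ u1 + u2) (h13' : 5985 / 10000 ≤ u1 + u3)
    (h23' : 5985 / 10000 ≤ u2 + u3) (hρ1 : 0 ≤ ρ)
    (hρ2 : ρ ≤ r0 u1 u2 u3 + 1 / 10000) (hσ1 : 2 * (ρ - 1 / 10000) ≤ σ)
    (hσ2 : 529 / 1000 - u3 + (ρ - 1 / 10000) ≤ σ) :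
    ρ + (eE σ (u1 + 1 / 100000) + eE σ (u2 + 1 / 100000)) / 2 ≤ 5983 / 10000 := by
  apply eE_pair_le
  unfold r0 at hρ2
  rcases le_total u2 (u1 + u2 / 2) with hc | hc
  · rw [max_eq_right hc] at hρ2
    rintro p q p' q' (⟨rfl, rfl⟩ | ⟨rfl, rfl⟩ | ⟨rfl, rfl⟩ | ⟨rfl, rfl⟩ | ⟨rfl, rfl⟩ | ⟨rfl, rfl⟩)
      (⟨rfl, rfl⟩ | ⟨rfl, rfl⟩ | ⟨rfl, rfl⟩ | ⟨rfl, rfl⟩ | ⟨rfl, rfl⟩ | ⟨rfl, rfl⟩) <;> linarith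
  · rw [max_eq_left hc] at hρ2
    rintro p q p' q' (⟨rfl, rfl⟩ | ⟨rfl, rfl⟩ | ⟨rfl, rfl⟩ | ⟨rfl, rfl⟩ | ⟨rfl, rfl⟩ | ⟨rfl, rfl⟩)
      (⟨rfl, rfl⟩ | ⟨rfl, rfl⟩ | ⟨rfl, rfl⟩ | ⟨rfl, rfl⟩ | ⟨rfl, rfl⟩ | ⟨rfl, rfl⟩) <;> linarith

end Pool.Agent.Lib.AbcX
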